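import Mathlib

/-!
# BO: transportation duality over bi-ordered groups

`duality`: let `G` be a group with a linear order invariant under left and right multiplications,
`a j c` a matrix over `G`, `E j` the allowed columns of the row `j`.  If there is a flow with row
sums `r` and column sums `s` on the allowed edges, then there are potentials `X`, `Z` with
`X c ≤ Z j * a j c` on the allowed edges and a flow with the same marginals on the edges where
equality holds.
-/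

open scoped BigOperators

namespace Pool.Agent.Helper27.BO

/-- flows from a Hall condition -/
theorem exists_flow {n d : ℕ} (N : Fin n → Finset (Fin d)) (r : Fin n → ℕ) (s : Fin d → ℕ)
    (hrs : ∑ j, r j = ∑ c, s c)
    (hall : ∀ J : Finset (Fin n), ∑ j ∈ J, r j ≤ ∑ c ∈ J.biUnion N, s c) :
    ∃ f : Fin n → Fin d → ℕ, (∀ j c, c ∉ N j → f j c = 0) ∧ (∀ j, ∑ c, f j c = r j) ∧
      ∀ c, ∑ j, f j c = s c := by
  classical
  let t : (Σ j : Fin n, Fin (r j)) → Finset (Σ c : Fin d, Fin (s c)) :=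
    fun x => (N x.1).sigma fun _ => Finset.univ
  have h1 : ∀ A : Finset (Σ j : Fin n, Fin (r j)), A.card ≤ (A.biUnion t).card := by
    intro A
    have h2 : A ⊆ (A.image Sigma.fst).sigma fun _ => Finset.univ := by
      intro x hx
      exact Finset.mem_sigma.2 ⟨Finset.mem_image_of_mem _ hx, Finset.mem_univ _⟩
    have h3 : A.biUnion t = ((A.image Sigma.fst).biUnion N).sigma fun _ => Finset.univ := by
      ext y
      simp only [t, Finset.mem_biUnion, Finset.mem_sigma, Finset.mem_univ, and_true,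
        Finset.mem_image, exists_exists_and_eq_and]
    calc A.card ≤ ((A.image Sigma.fst).sigma fun _ => Finset.univ).card :=
          Finset.card_le_card h2
      _ = ∑ j ∈ A.image Sigma.fst, r j := by simp
      _ ≤ ∑ c ∈ (A.image Sigma.fst).biUnion N, s c := hall _
      _ = (A.biUnion t).card := by rw [h3]; simp
  obtain ⟨F, hF, hFt⟩ := (Finset.all_card_le_biUnion_card_iff_exists_injective t).1 h1
  have hbij : Function.Bijective F := by
    rw [Fintype.bijective_iff_injective_and_card]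
    refine ⟨hF, ?_⟩
    simp only [Fintype.card_sigma, Fintype.card_fin]
    exact hrs
  refine ⟨fun j c => (Finset.univ.filter (fun i : Fin (r j) => (F ⟨j, i⟩).1 = c)).card,
    fun j c hc => ?_, fun j => ?_, fun c => ?_⟩
  · rw [Finset.card_eq_zero, Finset.filter_eq_empty_iff]
    intro i _ h
    have := (Finset.mem_sigma.1 (hFt ⟨j, i⟩)).1
    rw [h] at this
    exact hc this
  · rw [← Finset.card_eq_sum_card_fiberwise (f := fun i : Fin (r j) => (F ⟨j, i⟩).1)
      (fun _ _ => Finset.mem_coe.2 (Finset.mem_univ _))]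
    simp
  · have e1 : ∑ j, (Finset.univ.filter (fun i : Fin (r j) => (F ⟨j, i⟩).1 = c)).card =
        (Finset.univ.filter (fun x : Σ j : Fin n, Fin (r j) => (F x).1 = c)).card := by
      rw [← Finset.card_sigma]
      congr 1
      ext x
      simp
    rw [e1]
    have e2 : (Finset.univ.filter (fun x : Σ j : Fin n, Fin (r j) => (F x).1 = c)).card =
        (Finset.univ.filter (fun y : Σ c : Fin d, Fin (s c) => y.1 = c)).card := by
      refine Finset.card_bij (fun x _ => F x) (fun x hx => ?_) (fun x _ y _ h => hF h)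
        (fun y hy => ?_)
      · exact Finset.mem_filter.2 ⟨Finset.mem_univ _, (Finset.mem_filter.1 hx).2⟩
      · obtain ⟨x, rfl⟩ := hbij.2 y
        exact ⟨x, Finset.mem_filter.2 ⟨Finset.mem_univ _, (Finset.mem_filter.1 hy).2⟩, rfl⟩
    rw [e2]
    have e3 : (Finset.univ.filter (fun y : Σ c : Fin d, Fin (s c) => y.1 = c)) =
        (({c} : Finset (Fin d)).sigma fun _ => Finset.univ) := by
      ext y
      simp
    rw [e3]
    simp

section

variable {G : Type*} [Group G] [LinearOrder G] [MulLeftMono G] [MulRightMono G]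
variable {n d : ℕ}

/-- feasible potentials -/
def Feas (a : Fin n → Fin d → G) (E : Fin n → Finset (Fin d)) (X : Fin d → G) (Z : Fin n → G) :
    Prop := ∀ j, ∀ c ∈ E j, X c ≤ Z j * a j c

/-- the equality edges -/
def Eqe (a : Fin n → Fin d → G) (E : Fin n → Finset (Fin d)) (X : Fin d → G) (Z : Fin n → G)
    (j : Fin n) : Finset (Fin d) := (E j).filter fun c => X c = Z j * a j c

/-- the deficiency of a set of rows -/
def dfc (N : Fin n → Finset (Fin d)) (r : Fin n → ℕ) (s : Fin d → ℕ) (J : Finset (Fin n)) : ℤ :=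
  ∑ j ∈ J, (r j : ℤ) - ∑ c ∈ J.biUnion N, (s c : ℤ)

/-- a minimal set of maximal deficiency -/
structure MinDef (N : Fin n → Finset (Fin d)) (r : Fin n → ℕ) (s : Fin d → ℕ)
    (J : Finset (Fin n)) : Prop where
  le : ∀ K, dfc N r s K ≤ dfc N r s J
  lt : ∀ K, K ⊂ J → dfc N r s K < dfc N r s J

theorem exists_minDef (N : Fin n → Finset (Fin d)) (r : Fin n → ℕ) (s : Fin d → ℕ) :
    ∃ J, MinDef N r s J := by
  classical
  obtain ⟨J0, -, hJ0⟩ := Finset.exists_max_image (Finset.univ : Finset (Finset (Fin n)))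
    (dfc N r s) ⟨∅, Finset.mem_univ _⟩
  obtain ⟨J, hJ, hmin⟩ := Finset.exists_min_image
    (Finset.univ.filter fun J => dfc N r s J = dfc N r s J0) Finset.card
    ⟨J0, Finset.mem_filter.2 ⟨Finset.mem_univ _, rfl⟩⟩
  have hJ' := (Finset.mem_filter.1 hJ).2
  refine ⟨J, fun K => ?_, fun K hK => ?_⟩
  · rw [hJ']
    exact hJ0 K (Finset.mem_univ _)
  · refine lt_of_le_of_ne (by rw [hJ']; exact hJ0 K (Finset.mem_univ _)) fun h => ?_
    have := hmin K (Finset.mem_filter.2 ⟨Finset.mem_univ _, h.trans hJ'⟩)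
    have := Finset.card_lt_card hK
    omega

/-- one step of the primal-dual method -/
theorem step (a : Fin n → Fin d → G) (E : Fin n → Finset (Fin d)) (X : Fin d → G) (Z : Fin n → G)
    (h : Feas a E X Z) (J : Finset (Fin n)) (c1 : Fin d) (j1 : Fin n) (hj1 : j1 ∈ J)
    (hc1 : c1 ∈ E j1) (hc1' : c1 ∉ J.biUnion (Eqe a E X Z)) :
    ∃ X' Z', Feas a E X' Z' ∧ (∀ j ∈ J, Eqe a E X Z j ⊆ Eqe a E X' Z' j) ∧
      (∀ j, j ∉ J → ∀ c ∈ Eqe a E X Z j, c ∉ J.biUnion (Eqe a E X Z) → c ∈ Eqe a E X' Z' j) ∧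
      ∃ j0 ∈ J, ∃ c0, c0 ∉ J.biUnion (Eqe a E X Z) ∧ c0 ∈ Eqe a E X' Z' j0 := by
  classical
  set C := J.biUnion (Eqe a E X Z) with hC
  set Q : Finset (Fin n × Fin d) :=
    Finset.univ.filter (fun p => p.1 ∈ J ∧ p.2 ∈ E p.1 ∧ p.2 ∉ C) with hQ
  obtain ⟨p, hp, hmax⟩ := Finset.exists_max_image Q (fun p => X p.2 * (Z p.1 * a p.1 p.2)⁻¹)
    ⟨(j1, c1), Finset.mem_filter.2 ⟨Finset.mem_univ _, hj1, hc1, hc1'⟩⟩
  obtain ⟨-, hpJ, hpE, hpC⟩ := Finset.mem_filter.1 hp
  obtain ⟨g, hg⟩ : ∃ g, g = X p.2 * (Z p.1 * a p.1 p.2)⁻¹ := ⟨_, rfl⟩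
  have hg1 : g ≤ 1 := by
    have := mul_le_mul_left (h p.1 p.2 hpE) (Z p.1 * a p.1 p.2)⁻¹
    rwa [mul_inv_cancel, ← hg] at this
  refine ⟨fun c => if c ∈ C then g * X c else X c, fun j => if j ∈ J then g * Z j else Z j,
    ?_, ?_, ?_, p.1, hpJ, p.2, hpC, ?_⟩
  · intro j c hc
    dsimp only
    split_ifs with h1 h2 h2
    · rw [mul_assoc g]
      exact mul_le_mul_right (h j c hc) g
    · refine le_trans ?_ (h j c hc)
      have := mul_le_mul_left hg1 (X c)
      rwa [one_mul] at this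
    · have h3 : X c * (Z j * a j c)⁻¹ ≤ g := by
        rw [hg]
        exact hmax (j, c) (Finset.mem_filter.2 ⟨Finset.mem_univ _, h2, hc, h1⟩)
      have := mul_le_mul_left h3 (Z j * a j c)
      rwa [inv_mul_cancel_right, ← mul_assoc] at this
    · exact h j c hc
  · intro j hj c hc
    have hcC : c ∈ C := Finset.mem_biUnion.2 ⟨j, hj, hc⟩
    obtain ⟨h1, h2⟩ := Finset.mem_filter.1 hc
    refine Finset.mem_filter.2 ⟨h1, ?_⟩
    dsimp only
    rw [if_pos hcC, if_pos hj, mul_assoc g, ← h2]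
  · intro j hj c hc hcC
    obtain ⟨h1, h2⟩ := Finset.mem_filter.1 hc
    refine Finset.mem_filter.2 ⟨h1, ?_⟩
    dsimp only
    rw [if_neg hcC, if_neg hj, ← h2]
  · refine Finset.mem_filter.2 ⟨hpE, ?_⟩
    dsimp only
    rw [if_neg hpC, if_pos hpJ, mul_assoc g, hg, inv_mul_cancel_right]

/-- deficiencies after one step -/
theorem dfc_step {N N' : Fin n → Finset (Fin d)} {r : Fin n → ℕ} {s : Fin d → ℕ}
    {J : Finset (Fin n)} (hJ : MinDef N r s J) (h1 : ∀ j ∈ J, N j ⊆ N' j)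
    (h2 : ∀ j, j ∉ J → ∀ c ∈ N j, c ∉ J.biUnion N → c ∈ N' j) (K : Finset (Fin n)) :
    dfc N' r s K ≤ dfc N r s J ∧ (dfc N' r s K = dfc N r s J → J ⊆ K) := by
  classical
  have e1 : ∀ (f : Fin n → ℤ), ∑ j ∈ K, f j = ∑ j ∈ K ∩ J, f j + ∑ j ∈ K \ J, f j := by
    intro f
    rw [← Finset.sum_union (Finset.disjoint_left.2 fun j hj hj' =>
      (Finset.mem_sdiff.1 hj').2 (Finset.mem_inter.1 hj).2)]
    congr 1
    ext j
    simp only [Finset.mem_union, Finset.mem_inter, Finset.mem_sdiff]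
    tauto
  -- neighbours of `K` in the new graph
  have e2 : ∑ c ∈ (K ∩ J).biUnion N, (s c : ℤ) +
      ∑ c ∈ ((K \ J).biUnion N) \ (J.biUnion N), (s c : ℤ) ≤ ∑ c ∈ K.biUnion N', (s c : ℤ) := by
    rw [← Finset.sum_union]
    · refine Finset.sum_le_sum_of_subset_of_nonneg ?_ fun _ _ _ => Int.natCast_nonneg _
      intro c hc
      rcases Finset.mem_union.1 hc with hc | hc
      · obtain ⟨j, hj, hcj⟩ := Finset.mem_biUnion.1 hc
        obtain ⟨hjK, hjJ⟩ := Finset.mem_inter.1 hj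
        exact Finset.mem_biUnion.2 ⟨j, hjK, h1 j hjJ hcj⟩
      · obtain ⟨hc1, hc2⟩ := Finset.mem_sdiff.1 hc
        obtain ⟨j, hj, hcj⟩ := Finset.mem_biUnion.1 hc1
        obtain ⟨hjK, hjJ⟩ := Finset.mem_sdiff.1 hj
        exact Finset.mem_biUnion.2 ⟨j, hjK, h2 j hjJ c hcj hc2⟩
    · rw [Finset.disjoint_left]
      intro c hc hc'
      obtain ⟨j, hj, hcj⟩ := Finset.mem_biUnion.1 hc
      exact (Finset.mem_sdiff.1 hc').2
        (Finset.mem_biUnion.2 ⟨j, (Finset.mem_inter.1 hj).2, hcj⟩)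
  -- the old graph and `J ∪ (K \ J)`
  have e3 : dfc N r s (J ∪ (K \ J)) = dfc N r s J + ∑ j ∈ K \ J, (r j : ℤ) -
      ∑ c ∈ ((K \ J).biUnion N) \ (J.biUnion N), (s c : ℤ) := by
    unfold dfc
    rw [Finset.sum_union Finset.disjoint_sdiff]
    have : (J ∪ (K \ J)).biUnion N =
        J.biUnion N ∪ (((K \ J).biUnion N) \ (J.biUnion N)) := by
      ext c
      simp only [Finset.mem_biUnion, Finset.mem_union, Finset.mem_sdiff]
      constructor
      · rintro ⟨j, hj, hc⟩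
        by_cases hcJ : ∃ a ∈ J, c ∈ N a
        · exact Or.inl hcJ
        · rcases hj with hj | hj
          · exact absurd ⟨j, hj, hc⟩ hcJ
          · exact Or.inr ⟨⟨j, hj, hc⟩, hcJ⟩
      · rintro (⟨j, hj, hc⟩ | ⟨⟨j, hj, hc⟩, -⟩)
        · exact ⟨j, Or.inl hj, hc⟩
        · exact ⟨j, Or.inr hj, hc⟩
    rw [this, Finset.sum_union Finset.disjoint_sdiff]
    ring
  have e4 := hJ.le (J ∪ (K \ J))
  have e5 := hJ.le (K ∩ J)
  have e6 : dfc N' r s K ≤ dfc N r s (K ∩ J) := by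
    have e7 : dfc N' r s K = (∑ j ∈ K ∩ J, (r j : ℤ) + ∑ j ∈ K \ J, (r j : ℤ)) -
        ∑ c ∈ K.biUnion N', (s c : ℤ) := by
      unfold dfc
      rw [e1]
    have e8 : dfc N r s (K ∩ J) = ∑ j ∈ K ∩ J, (r j : ℤ) - ∑ c ∈ (K ∩ J).biUnion N, (s c : ℤ) :=
      rfl
    rw [e3] at e4
    linarith
  refine ⟨e6.trans e5, fun heq => ?_⟩
  by_contra hne
  have : K ∩ J ⊂ J := by
    refine ⟨Finset.inter_subset_right, fun hsub => hne fun j hj => ?_⟩
    exact (Finset.mem_inter.1 (hsub hj)).1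
  have := hJ.lt _ this
  linarith

theorem exists_potentials (a : Fin n → Fin d → G) (E : Fin n → Finset (Fin d)) (r : Fin n → ℕ)
    (s : Fin d → ℕ)
    (hE : ∀ J : Finset (Fin n), ∑ j ∈ J, r j ≤ ∑ c ∈ J.biUnion E, s c) :
    ∀ (M : ℕ) (X : Fin d → G) (Z : Fin n → G), Feas a E X Z → ∀ J, MinDef (Eqe a E X Z) r s J →
      (dfc (Eqe a E X Z) r s J).toNat * (d + 1) + (d - (J.biUnion (Eqe a E X Z)).card) ≤ M →
      ∃ X' Z', Feas a E X' Z' ∧ ∀ K, dfc (Eqe a E X' Z') r s K ≤ 0 := by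
  classical
  intro M
  induction M using Nat.strong_induction_on with
  | _ M ih =>
  intro X Z h J hJ hM
  by_cases h0 : dfc (Eqe a E X Z) r s J ≤ 0
  · exact ⟨X, Z, h, fun K => (hJ.le K).trans h0⟩
  push Not at h0
  -- an allowed edge leaving the neighbourhood
  have h1 : ∃ j1 ∈ J, ∃ c1 ∈ E j1, c1 ∉ J.biUnion (Eqe a E X Z) := by
    by_contra hcon
    push Not at hcon
    have h2 : J.biUnion E ⊆ J.biUnion (Eqe a E X Z) := by
      intro c hc
      obtain ⟨j, hj, hcj⟩ := Finset.mem_biUnion.1 hc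
      exact hcon j hj c hcj
    have h3 := (hE J).trans (Finset.sum_le_sum_of_subset h2)
    unfold dfc at h0
    have h4 : (∑ j ∈ J, (r j : ℤ)) ≤ ∑ c ∈ J.biUnion (Eqe a E X Z), (s c : ℤ) := by
      exact_mod_cast h3
    linarith
  obtain ⟨j1, hj1, c1, hc1, hc1'⟩ := h1
  obtain ⟨X', Z', hf, hin, hout, j0, hj0, c0, hc0, hc0'⟩ := step a E X Z h J c1 j1 hj1 hc1 hc1'
  obtain ⟨J', hJ'⟩ := exists_minDef (Eqe a E X' Z') r s
  obtain ⟨k1, k2⟩ := dfc_step hJ hin hout J'
  have hcd : ∀ (N : Fin n → Finset (Fin d)) (K : Finset (Fin n)), (K.biUnion N).card ≤ d := by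
    intro N K
    simpa using Finset.card_le_univ (K.biUnion N)
  refine ih _ ?_ X' Z' hf J' hJ' le_rfl
  rcases k1.lt_or_eq with hlt | heq
  · -- smaller deficiency
    have h5 : (dfc (Eqe a E X' Z') r s J').toNat + 1 ≤ (dfc (Eqe a E X Z) r s J).toNat := by
      omega
    have h6 := Nat.mul_le_mul_right (d + 1) h5
    rw [add_mul, one_mul] at h6
    omega
  · -- larger neighbourhood
    have hsub := k2 heq
    have h5 : J.biUnion (Eqe a E X Z) ⊂ J'.biUnion (Eqe a E X' Z') := by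
      rw [Finset.ssubset_iff_of_subset]
      · exact ⟨c0, Finset.mem_biUnion.2 ⟨j0, hsub hj0, hc0'⟩, hc0⟩
      · intro c hc
        obtain ⟨j, hj, hcj⟩ := Finset.mem_biUnion.1 hc
        exact Finset.mem_biUnion.2 ⟨j, hsub hj, hin j hj hcj⟩
    have h6 := Finset.card_lt_card h5
    have h7 := hcd (Eqe a E X' Z') J'
    rw [heq]
    omega

/-- **Transportation duality over bi-ordered groups.** -/
theorem duality (a : Fin n → Fin d → G) (E : Fin n → Finset (Fin d)) (r : Fin n → ℕ)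
    (s : Fin d → ℕ) (f0 : Fin n → Fin d → ℕ) (hf0 : ∀ j c, c ∉ E j → f0 j c = 0)
    (hr : ∀ j, ∑ c, f0 j c = r j) (hs : ∀ c, ∑ j, f0 j c = s c) :
    ∃ (X : Fin d → G) (Z : Fin n → G) (f : Fin n → Fin d → ℕ),
      (∀ j, ∀ c ∈ E j, X c ≤ Z j * a j c) ∧ (∀ j c, f j c ≠ 0 → c ∈ E j ∧ X c = Z j * a j c) ∧
      (∀ j, ∑ c, f j c = r j) ∧ ∀ c, ∑ j, f j c = s c := by
  classical
  have hE : ∀ J : Finset (Fin n), ∑ j ∈ J, r j ≤ ∑ c ∈ J.biUnion E, s c := by
    intro J
    calc ∑ j ∈ J, r j = ∑ j ∈ J, ∑ c ∈ J.biUnion E, f0 j c := by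
          refine Finset.sum_congr rfl fun j hj => ?_
          rw [← hr j]
          refine (Finset.sum_subset (Finset.subset_univ _) fun c _ hc => hf0 j c fun h => hc ?_).symm
          exact Finset.mem_biUnion.2 ⟨j, hj, h⟩
      _ = ∑ c ∈ J.biUnion E, ∑ j ∈ J, f0 j c := Finset.sum_comm
      _ ≤ ∑ c ∈ J.biUnion E, s c := by
          refine Finset.sum_le_sum fun c _ => ?_
          rw [← hs c]
          exact Finset.sum_le_sum_of_subset (Finset.subset_univ _)
  -- initial potentials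
  obtain ⟨Z0, hZ0⟩ : ∃ Z0 : Fin n → G, ∀ j, ∀ c, 1 ≤ Z0 j * a j c := by
    have : ∀ j, ∃ z : G, ∀ c, 1 ≤ z * a j c := by
      intro j
      obtain ⟨z, hz⟩ := (Finset.univ.image fun c => (a j c)⁻¹).exists_le
      refine ⟨z, fun c => ?_⟩
      have := mul_le_mul_left (hz _ (Finset.mem_image_of_mem _ (Finset.mem_univ c))) (a j c)
      rwa [inv_mul_cancel] at this
    choose Z0 hZ0 using this
    exact ⟨Z0, hZ0⟩
  obtain ⟨J, hJ⟩ := exists_minDef (Eqe a E (fun _ => 1) Z0) r s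
  obtain ⟨X, Z, hf, hdef⟩ := exists_potentials a E r s hE _ (fun _ => 1) Z0
    (fun j c _ => hZ0 j c) J hJ le_rfl
  obtain ⟨f, h1, h2, h3⟩ := exists_flow (Eqe a E X Z) r s (by
    calc ∑ j, r j = ∑ j, ∑ c, f0 j c := by simp only [hr]
      _ = ∑ c, ∑ j, f0 j c := Finset.sum_comm
      _ = ∑ c, s c := by simp only [hs]) (fun K => by
    have := hdef K
    unfold dfc at this
    have h4 : (∑ j ∈ K, (r j : ℤ)) ≤ ∑ c ∈ K.biUnion (Eqe a E X Z), (s c : ℤ) := by linarith
    exact_mod_cast h4)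
  refine ⟨X, Z, f, hf, fun j c hc => ?_, h2, h3⟩
  by_contra hcon
  exact hc (h1 j c fun h => hcon (Finset.mem_filter.1 h))

end

end Pool.Agent.Helper27.BO
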