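import Pool.Agent.Helper28.SP.RegTree
import Pool.Agent.Helper27.BO.Duality

/-!
# BO: degrees of the equality forest, uniqueness of the equality edges
-/

open scoped BigOperators

namespace Pool.Agent.Helper27.BO

open Pool.Agent.Helper28.SO (reg_flow reg_cut reg_cut_value)

variable {n d : ℕ}

theorem deg_of_flow (hn : 1 ≤ n) (hd : 1 ≤ d) (A : Fin n → Finset (Fin d))
    (hfor : ∀ h : Fin n → Fin d → ℝ, (∀ i c, c ∉ A i → h i c = 0) → (∀ i, ∑ c, h i c = 0) →
      (∀ c, ∑ i, h i c = 0) → h = 0) (v : Fin d → ℕ) (hv : ∑ c, v c = n - 1)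
    (f : Fin n → Fin d → ℕ) (hf : ∀ j c, c ∉ A j → f j c = 0) (hr : ∀ j, ∑ c, f j c = d)
    (hs : ∀ c, ∑ j, f j c = d * v c + 1) (c0 : Fin d) :
    (Finset.univ.filter (fun j => c0 ∈ A j)).card = v c0 + 1 := by
  classical
  have hd0 : (0 : ℝ) < d := by exact_mod_cast hd
  have hne : ∀ j, (A j).Nonempty := by
    intro j
    by_contra hcon
    rw [Finset.not_nonempty_iff_eq_empty] at hcon
    have := hr j
    rw [Finset.sum_eq_zero fun c _ => hf j c (by rw [hcon]; simp)] at this
    omega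
  -- closed sets of labels and colours
  have hclosed : ∀ (J : Finset (Fin n)) (C : Finset (Fin d)), C.Nonempty →
      (∀ j, ∀ c ∈ A j, j ∈ J ↔ c ∈ C) → C = Finset.univ := by
    intro J C hC hJC
    have e1 : ∑ j ∈ J, ∑ c, f j c = ∑ c ∈ C, ∑ j, f j c := by
      have e2 : ∑ j ∈ J, ∑ c, f j c = ∑ j, ∑ c, if j ∈ J then f j c else 0 := by
        rw [← Finset.sum_subset (Finset.subset_univ J)]
        · refine Finset.sum_congr rfl fun j hj => Finset.sum_congr rfl fun c _ => ?_
          rw [if_pos hj]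
        · intro j _ hj
          refine Finset.sum_eq_zero fun c _ => ?_
          rw [if_neg hj]
      have e3 : ∑ c ∈ C, ∑ j, f j c = ∑ c, ∑ j, if c ∈ C then f j c else 0 := by
        rw [← Finset.sum_subset (Finset.subset_univ C)]
        · refine Finset.sum_congr rfl fun j hj => Finset.sum_congr rfl fun c _ => ?_
          rw [if_pos hj]
        · intro j _ hj
          refine Finset.sum_eq_zero fun c _ => ?_
          rw [if_neg hj]
      rw [e2, e3, Finset.sum_comm]
      refine Finset.sum_congr rfl fun c _ => Finset.sum_congr rfl fun j _ => ?_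
      by_cases hc : c ∈ A j
      · have := hJC j c hc
        by_cases hj : j ∈ J
        · rw [if_pos hj, if_pos (this.1 hj)]
        · rw [if_neg hj, if_neg fun h => hj (this.2 h)]
      · rw [hf j c hc]
        simp
    simp only [hr, hs, Finset.sum_const, smul_eq_mul, Finset.sum_add_distrib, mul_one,
      ← Finset.mul_sum] at e1
    have h1 : d ∣ C.card := by
      have h2 : C.card = J.card * d - d * ∑ c ∈ C, v c := by omega
      rw [h2]
      exact Nat.dvd_sub (Dvd.intro_left _ rfl) (Dvd.intro _ rfl)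
    have h2 := Nat.le_of_dvd hC.card_pos h1
    apply Finset.eq_univ_of_card
    rw [Fintype.card_fin]
    refine le_antisymm ?_ h2
    simpa using Finset.card_le_univ C
  -- flows with prescribed column sums
  have hconn : ∀ z : Fin d → ℝ, ∑ c, z c = 0 →
      ∃ h : Fin n → Fin d → ℝ, (∀ i c, c ∉ A i → h i c = 0) ∧
        (∀ i, ∑ c, h i c = 0) ∧ ∀ c, ∑ i, h i c = z c := by
    intro z hz
    apply reg_flow
    by_contra hcon
    obtain ⟨φ, hφz, hφ⟩ := Submodule.exists_le_ker_of_notMem hcon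
    have hφ' : ∀ i, ∀ k ∈ A i, ∀ k' ∈ A i, φ (Pi.single k 1) = φ (Pi.single k' 1) := by
      intro i k hk k' hk'
      have h1 := hφ (Submodule.subset_span ⟨i, k, hk, k', hk', rfl⟩)
      rw [LinearMap.mem_ker, map_sub, sub_eq_zero] at h1
      exact h1
    have h1 := hclosed (Finset.univ.filter fun j => ∃ c ∈ A j, φ (Pi.single c 1) =
        φ (Pi.single c0 1)) (Finset.univ.filter fun c => φ (Pi.single c 1) = φ (Pi.single c0 1))
      ⟨c0, by simp⟩ (by
        intro j c hc
        simp only [Finset.mem_filter, Finset.mem_univ, true_and]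
        constructor
        · rintro ⟨c', hc', h⟩
          rw [hφ' j c hc c' hc', h]
        · intro h
          exact ⟨c, hc, h⟩)
    have h2 : ∀ c, φ (Pi.single c 1) = φ (Pi.single c0 1) := by
      intro c
      have : c ∈ (Finset.univ.filter fun c => φ (Pi.single c 1) = φ (Pi.single c0 1)) := by
        rw [h1]
        exact Finset.mem_univ _
      exact (Finset.mem_filter.1 this).2
    apply hφz
    have h3 : z = ∑ c, z c • (Pi.single c 1 : Fin d → ℝ) := by
      ext c
      simp [Finset.sum_apply, Pi.single_apply]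
    rw [h3, map_sum]
    simp only [map_smul, h2, smul_eq_mul]
    rw [← Finset.sum_mul, hz, zero_mul]
  -- values of flows on the edges at `c0`
  have hcut : ∀ i, c0 ∈ A i → ∃ (RL : Finset (Fin n)) (RC : Finset (Fin d)), c0 ∈ RC ∧ i ∉ RL ∧
      (∀ i' c', c' ∈ A i' → ¬ (i' = i ∧ c' = c0) → (i' ∈ RL ↔ c' ∈ RC)) ∧
      ∑ c' ∈ RC, v c' = RL.card := by
    intro i hc
    obtain ⟨RL, RC, h1, h2, h3⟩ := reg_cut _ hfor i c0 hc
    refine ⟨RL, RC, h1, h2, h3, ?_⟩
    have hval := reg_cut_value h1 h2 h3 (fun i c => (f i c : ℝ)) (fun i c hc => by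
      rw [hf i c hc, Nat.cast_zero])
    have hval' : (f i c0 : ℤ) = d * (∑ c' ∈ RC, (v c' : ℤ) - RL.card) + RC.card := by
      have e1 : (∑ c' ∈ RC, ∑ i', (f i' c' : ℝ)) = ((d * ∑ c' ∈ RC, v c' + RC.card : ℕ) : ℝ) := by
        rw [Finset.sum_congr rfl fun c' _ => (Nat.cast_sum Finset.univ fun i' => f i' c').symm]
        rw [← Nat.cast_sum]
        simp only [hs, Finset.sum_add_distrib, ← Finset.mul_sum, Finset.sum_const, smul_eq_mul,
          mul_one]
      have e2 : (∑ i' ∈ RL, ∑ c', (f i' c' : ℝ)) = ((RL.card * d : ℕ) : ℝ) := by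
        rw [Finset.sum_congr rfl fun i' _ => (Nat.cast_sum Finset.univ fun c' => f i' c').symm]
        rw [← Nat.cast_sum]
        simp only [hr, Finset.sum_const, smul_eq_mul]
      rw [e1, e2] at hval
      have hval2 : (f i c0 : ℝ) + ((RL.card * d : ℕ) : ℝ) =
          ((d * ∑ c' ∈ RC, v c' + RC.card : ℕ) : ℝ) := by linarith
      have hval3 : f i c0 + RL.card * d = d * ∑ c' ∈ RC, v c' + RC.card := by
        exact_mod_cast hval2
      have hval4 : (f i c0 : ℤ) + RL.card * d = d * ∑ c' ∈ RC, (v c' : ℤ) + RC.card := by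
        exact_mod_cast hval3
      linarith
    have hle : f i c0 ≤ d := by
      rw [← hr i]
      exact Finset.single_le_sum (f := fun c => f i c) (fun c _ => Nat.zero_le _)
        (Finset.mem_univ c0)
    have hr1 : 1 ≤ RC.card := Finset.card_pos.2 ⟨c0, h1⟩
    have hrd : RC.card ≤ d := by simpa using Finset.card_le_univ RC
    have hRL : RL.card < n := by
      calc RL.card < (Finset.univ : Finset (Fin n)).card := Finset.card_lt_card
            ⟨Finset.subset_univ _, fun h => h2 (h (Finset.mem_univ i))⟩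
        _ = n := by simp
    set q : ℤ := ∑ c' ∈ RC, (v c' : ℤ) - RL.card with hq
    have hdz : (1 : ℤ) ≤ d := by exact_mod_cast hd
    have hq1 : q < 1 := by
      by_contra hcon
      push Not at hcon
      have : (d : ℤ) * 1 ≤ d * q := by nlinarith
      omega
    have hq2 : -1 ≤ q := by
      by_contra hcon
      push Not at hcon
      have : (d : ℤ) * q ≤ d * (-2) := by nlinarith
      omega
    have hq3 : q ≠ -1 := by
      intro hcon
      rw [hcon] at hval'
      have h6 : RC.card = d := by omega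
      have h7 : RC = Finset.univ := by
        apply Finset.eq_univ_of_card
        rw [Fintype.card_fin]
        exact h6
      rw [h7, ← Nat.cast_sum, hv] at hq
      omega
    have hq4 : q = 0 := by omega
    rw [← Nat.cast_sum] at hq
    omega
  obtain ⟨h, a1, a2, a3⟩ := hconn (fun c => (if c = c0 then 1 else 0) - 1 / d) (by
    rw [Finset.sum_sub_distrib]
    simp only [Finset.sum_ite_eq', Finset.mem_univ, if_true, Finset.sum_const,
      Finset.card_univ, Fintype.card_fin, nsmul_eq_mul]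
    field_simp
    ring)
  have b1 : ∀ i c, c ∉ A i → (f i c : ℝ) / d + h i c = 0 := fun i c hc => by
    rw [hf i c hc, a1 i c hc, Nat.cast_zero, zero_div, add_zero]
  have b2 : ∀ i, ∑ c, ((f i c : ℝ) / d + h i c) = 1 := fun i => by
    rw [Finset.sum_add_distrib, a2, add_zero, ← Finset.sum_div, ← Nat.cast_sum, hr i,
      div_self hd0.ne']
  have b3 : ∀ c, ∑ i, ((f i c : ℝ) / d + h i c) = v c + (if c = c0 then 1 else 0) := fun c => by
    rw [Finset.sum_add_distrib, a3, ← Finset.sum_div, ← Nat.cast_sum, hs c]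
    push_cast
    field_simp
    ring
  have hone : ∀ i, c0 ∈ A i → (f i c0 : ℝ) / d + h i c0 = 1 := by
    intro i hi
    obtain ⟨RL, RC, h1, h2, h3, h4⟩ := hcut i hi
    rw [reg_cut_value h1 h2 h3 (fun i c => (f i c : ℝ) / d + h i c) b1]
    simp only [b2, b3, Finset.sum_const, nsmul_eq_mul, mul_one, Finset.sum_add_distrib,
      Finset.sum_ite_eq', h1, if_true]
    rw [← Nat.cast_sum, h4]
    ring
  have h5 := b3 c0
  rw [if_pos rfl] at h5
  have h6 : ∑ i, ((f i c0 : ℝ) / d + h i c0) = ∑ i, (if c0 ∈ A i then (1 : ℝ) else 0) := by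
    refine Finset.sum_congr rfl fun i _ => ?_
    by_cases hi : c0 ∈ A i
    · rw [hone i hi, if_pos hi]
    · rw [b1 i c0 hi, if_neg hi]
  rw [h6, Finset.sum_boole] at h5
  exact_mod_cast h5

variable {G : Type*} [Group G] [LinearOrder G] [MulLeftMono G] [MulRightMono G]

/-- two flows with the same marginals on equality edges live on the same equality edges -/
theorem support_eq (a : Fin n → Fin d → G) {X X' : Fin d → G} {Z Z' : Fin n → G}
    (h : ∀ j c, X c ≤ Z j * a j c) (h' : ∀ j c, X' c ≤ Z' j * a j c)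
    (g g' : Fin n → Fin d → ℝ) (hg : ∀ j c, 0 ≤ g j c) (hg' : ∀ j c, 0 ≤ g' j c)
    (hs : ∀ j c, X c ≠ Z j * a j c → g j c = 0)
    (hs' : ∀ j c, X' c ≠ Z' j * a j c → g' j c = 0)
    (hrow : ∀ j, ∑ c, g j c = ∑ c, g' j c) (hcol : ∀ c, ∑ j, g j c = ∑ j, g' j c) :
    ∀ j c, X c ≠ Z j * a j c → g' j c = 0 := by
  classical
  have k1 : ∀ j c, g j c ≠ 0 → X' c * (X c)⁻¹ ≤ Z' j * (Z j)⁻¹ := by
    intro j c hgj
    have e : X c = Z j * a j c := by
      by_contra hne
      exact hgj (hs j c hne)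
    have h1 := mul_le_mul_left (h' j c) (X c)⁻¹
    rwa [e, mul_inv_rev, mul_assoc (Z' j), mul_inv_cancel_left, ← mul_inv_rev, ← e] at h1
  have k2 : ∀ j c, g' j c ≠ 0 → Z' j * (Z j)⁻¹ ≤ X' c * (X c)⁻¹ ∧
      (Z' j * (Z j)⁻¹ = X' c * (X c)⁻¹ → X c = Z j * a j c) := by
    intro j c hgj
    have e : X' c = Z' j * a j c := by
      by_contra hne
      exact hgj (hs' j c hne)
    have h1 : (Z j * a j c)⁻¹ ≤ (X c)⁻¹ := by
      have h2 := mul_le_mul_left (h j c) (Z j * a j c)⁻¹
      rw [mul_inv_cancel] at h2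
      have h3 := mul_le_mul_right h2 (X c)⁻¹
      rwa [inv_mul_cancel_left, mul_one] at h3
    constructor
    · have h3 := mul_le_mul_right h1 (Z' j * a j c)
      rwa [mul_inv_rev, mul_assoc (Z' j), mul_inv_cancel_left, ← e] at h3
    · intro h3
      rw [e, mul_assoc] at h3
      have h4 := mul_left_cancel h3
      -- `(Z j)⁻¹ = a j c * (X c)⁻¹`
      rw [eq_mul_inv_iff_mul_eq] at h4
      rw [← h4, mul_inv_cancel_left]
  intro j0 c0 hne
  by_contra hpos0
  have hpos : 0 < g' j0 c0 := lt_of_le_of_ne (hg' j0 c0) (Ne.symm hpos0)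
  obtain ⟨h1, h2⟩ := k2 j0 c0 hpos0
  have h3 : Z' j0 * (Z j0)⁻¹ < X' c0 * (X c0)⁻¹ :=
    lt_of_le_of_ne h1 fun h => hne (h2 h)
  set t := X' c0 * (X c0)⁻¹ with ht
  set C := Finset.univ.filter fun c => t ≤ X' c * (X c)⁻¹ with hC
  set J := Finset.univ.filter fun j => t ≤ Z' j * (Z j)⁻¹ with hJ
  -- columns of `g`
  have s1 : ∑ c ∈ C, ∑ j, g j c ≤ ∑ j ∈ J, ∑ c, g j c := by
    calc ∑ c ∈ C, ∑ j, g j c = ∑ c ∈ C, ∑ j ∈ J, g j c := by
          refine Finset.sum_congr rfl fun c hc => ?_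
          refine (Finset.sum_subset (Finset.subset_univ _) fun j _ hj => ?_).symm
          by_contra hgj
          exact hj (Finset.mem_filter.2 ⟨Finset.mem_univ _,
            (Finset.mem_filter.1 hc).2.trans (k1 j c hgj)⟩)
      _ = ∑ j ∈ J, ∑ c ∈ C, g j c := Finset.sum_comm
      _ ≤ ∑ j ∈ J, ∑ c, g j c := Finset.sum_le_sum fun j _ =>
          Finset.sum_le_sum_of_subset_of_nonneg (Finset.subset_univ _) fun c _ _ => hg j c
  have s2 : ∑ j ∈ J, ∑ c, g' j c + g' j0 c0 ≤ ∑ c ∈ C, ∑ j, g' j c := by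
    have hc0 : c0 ∈ C := Finset.mem_filter.2 ⟨Finset.mem_univ _, le_rfl⟩
    have hj0 : j0 ∉ J := fun hj => absurd (Finset.mem_filter.1 hj).2 (not_le.2 h3)
    calc ∑ j ∈ J, ∑ c, g' j c + g' j0 c0 = ∑ j ∈ J, ∑ c ∈ C, g' j c + g' j0 c0 := by
          congr 1
          refine Finset.sum_congr rfl fun j hj => ?_
          refine (Finset.sum_subset (Finset.subset_univ _) fun c _ hc => ?_).symm
          by_contra hgj
          exact hc (Finset.mem_filter.2 ⟨Finset.mem_univ _,
            (Finset.mem_filter.1 hj).2.trans (k2 j c hgj).1⟩)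
      _ ≤ ∑ j ∈ J, ∑ c ∈ C, g' j c + ∑ c ∈ C, g' j0 c := by
          have := Finset.single_le_sum (f := fun c => g' j0 c) (fun c _ => hg' j0 c) hc0
          linarith
      _ = ∑ j ∈ insert j0 J, ∑ c ∈ C, g' j c := by
          rw [Finset.sum_insert hj0, add_comm]
      _ = ∑ c ∈ C, ∑ j ∈ insert j0 J, g' j c := Finset.sum_comm
      _ ≤ ∑ c ∈ C, ∑ j, g' j c := Finset.sum_le_sum fun c _ =>
          Finset.sum_le_sum_of_subset_of_nonneg (Finset.subset_univ _) fun j _ _ => hg' j c
  have s3 : ∑ c ∈ C, ∑ j, g j c = ∑ c ∈ C, ∑ j, g' j c :=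
    Finset.sum_congr rfl fun c _ => hcol c
  have s4 : ∑ j ∈ J, ∑ c, g j c = ∑ j ∈ J, ∑ c, g' j c :=
    Finset.sum_congr rfl fun j _ => hrow j
  linarith

end Pool.Agent.Helper27.BO
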