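import Pool.Agent.Helper28.SP.Merge
import Pool.Agent.Helper27.BO.Deg

/-!
# BO: families over bi-ordered groups are realised

`tRealized_of_bo`: let `G` be a group with a linear order invariant under left and right
multiplications and `a : Fin n → Fin d → G`.  If for all `k ≠ j` the colour `g k j` is the strict
maximum of `a k c * (a j c)⁻¹`, then the contents of the `g k` are the holes of a compatible
family of trees.
-/

open scoped BigOperators

namespace Pool.Agent.Helper27.BO

open Pool.Agent.Helper28.SO (TreeFam TRealized)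

variable {n d : ℕ}

section

variable {G : Type*} [Group G] [LinearOrder G] [MulLeftMono G] [MulRightMono G]

/-- the equality graphs are forests -/
def Gen (a : Fin n → Fin d → G) : Prop :=
  ∀ (X : Fin d → G) (Z : Fin n → G) (h : Fin n → Fin d → ℝ),
    (∀ j c, X c ≠ Z j * a j c → h j c = 0) → (∀ j, ∑ c, h j c = 0) → (∀ c, ∑ j, h j c = 0) → h = 0

/-- the version for generic matrices -/
theorem tRealized_of_gen (hn : 1 ≤ n) (hd : 1 ≤ d) (a : Fin n → Fin d → G) (ha : Gen a)
    (g : Fin n → Fin n → Fin d)
    (hg : ∀ k j, k ≠ j → ∀ c, c ≠ g k j → a k c * (a j c)⁻¹ < a k (g k j) * (a j (g k j))⁻¹)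
    (v : Fin n → Fin d → ℕ)
    (hv : ∀ k c, v k c = (Finset.univ.filter (fun j => j ≠ k ∧ g k j = c)).card) :
    TRealized n d v := by
  classical
  have hd0 : (0 : ℝ) < d := by exact_mod_cast hd
  -- sums of the contents
  have hvs : ∀ k, ∑ c, v k c = n - 1 := by
    intro k
    have h1 : ∑ c, v k c = (Finset.univ.filter (fun j : Fin n => j ≠ k)).card := by
      rw [Finset.card_eq_sum_card_fiberwise (f := fun j => g k j) (t := Finset.univ)
        (fun _ _ => by simp)]
      refine Finset.sum_congr rfl fun c _ => ?_
      rw [hv k c, Finset.filter_filter]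
    rw [h1, Finset.filter_ne', Finset.card_erase_of_mem (Finset.mem_univ k)]
    simp
  -- potentials for every position
  have ex : ∀ u : Fin d → ℕ, ∃ (X : Fin d → G) (Z : Fin n → G) (f : Fin n → Fin d → ℕ),
      ∑ c, u c = n - 1 → (∀ j c, X c ≤ Z j * a j c) ∧ (∀ j c, X c ≠ Z j * a j c → f j c = 0) ∧
      (∀ j, ∑ c, f j c = d) ∧ ∀ c, ∑ j, f j c = d * u c + 1 := by
    intro u
    by_cases hu : ∑ c, u c = n - 1
    · obtain ⟨f0, h1, h2, h3⟩ := exists_flow (fun _ : Fin n => (Finset.univ : Finset (Fin d)))
        (fun _ => d) (fun c => d * u c + 1) (by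
          rw [Finset.sum_add_distrib, ← Finset.mul_sum, hu]
          simp only [Finset.sum_const, Finset.card_univ, Fintype.card_fin, smul_eq_mul, mul_one]
          obtain ⟨m, rfl⟩ : ∃ m, n = m + 1 := ⟨n - 1, by omega⟩
          rw [Nat.add_sub_cancel]
          ring) (by
          intro J
          rcases J.eq_empty_or_nonempty with rfl | ⟨j, hj⟩
          · simp
          · have e1 : J.biUnion (fun _ : Fin n => (Finset.univ : Finset (Fin d))) =
                Finset.univ := by
              ext c
              simp only [Finset.mem_biUnion, Finset.mem_univ, and_true, iff_true]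
              exact ⟨j, hj⟩
            rw [e1, Finset.sum_add_distrib, ← Finset.mul_sum, hu]
            simp only [Finset.sum_const, Finset.card_univ, Fintype.card_fin, smul_eq_mul, mul_one]
            have h1 : J.card ≤ n := by simpa using Finset.card_le_univ J
            obtain ⟨m, rfl⟩ : ∃ m, n = m + 1 := ⟨n - 1, by omega⟩
            rw [Nat.add_sub_cancel]
            calc J.card * d ≤ (m + 1) * d := Nat.mul_le_mul_right _ h1
              _ = d * m + d := by ring)
      obtain ⟨X, Z, f, k1, k2, k3, k4⟩ := duality a (fun _ => Finset.univ) (fun _ => d)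
        (fun c => d * u c + 1) f0 h1 h2 h3
      refine ⟨X, Z, f, fun _ => ⟨fun j c => k1 j c (Finset.mem_univ _), fun j c hne => ?_, k3, k4⟩⟩
      by_contra hcon
      exact hne (k2 j c hcon).2
    · exact ⟨fun _ => 1, fun _ => 1, fun _ _ => 0, fun h => absurd h hu⟩
  choose X Z f hXZ using ex
  set T : (Fin d → ℕ) → Fin n → Finset (Fin d) := fun u j =>
    Finset.univ.filter (fun c => X u c = Z u j * a j c) with hT
  have hmem : ∀ u j c, c ∈ T u j ↔ X u c = Z u j * a j c := by
    intro u j c
    simp [hT]
  refine ⟨T, ⟨fun u hu c => ?_, ?_⟩, hvs, fun k => ?_⟩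
  · obtain ⟨-, h2, h3, h4⟩ := hXZ u hu
    exact deg_of_flow hn hd (T u) (fun h p1 p2 p3 => ha (X u) (Z u) h
      (fun j c hne => p1 j c fun hc => hne ((hmem u j c).1 hc)) p2 p3) u hu (f u)
      (fun j c hc => h2 j c fun h => hc ((hmem u j c).2 h)) h3 h4 c
  · intro u w hu hw g g' hg0 hg0' hs hs' hrow hcol
    have h1 := support_eq a (hXZ u hu).1 (hXZ w hw).1 g g' hg0 hg0'
      (fun j c hne => hs j c fun hc => hne ((hmem u j c).1 hc))
      (fun j c hne => hs' j c fun hc => hne ((hmem w j c).1 hc)) hrow hcol
    have h2 := ha (X u) (Z u) (fun j c => g j c - g' j c) (fun j c hne => by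
      show g j c - g' j c = 0
      rw [h1 j c hne, hs j c fun hc => hne ((hmem u j c).1 hc), sub_zero])
      (fun j => by rw [Finset.sum_sub_distrib, hrow j, sub_self])
      (fun c => by rw [Finset.sum_sub_distrib, hcol c, sub_self])
    funext j c
    have := congrFun (congrFun h2 j) c
    simp only [Pi.zero_apply] at this
    linarith
  · -- the hole of the label `k`
    obtain ⟨h1, h2, h3, h4⟩ := hXZ (v k) (hvs k)
    -- the potentials of the hole
    obtain ⟨Zk, hZk⟩ : ∃ Zk : Fin n → G, ∀ j, Zk j = if j = k then 1 else
        a k (g k j) * (a j (g k j))⁻¹ := ⟨_, fun _ => rfl⟩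
    have hfe : ∀ j c, a k c ≤ Zk j * a j c := by
      intro j c
      rw [hZk]
      split_ifs with hj
      · rw [hj, one_mul]
      · by_cases hc : c = g k j
        · rw [hc, inv_mul_cancel_right]
        · have := mul_le_mul_left (hg k j (Ne.symm hj) c hc).le (a j c)
          rwa [inv_mul_cancel_right] at this
    have hne : ∀ j c, a k c ≠ Zk j * a j c → j ≠ k ∧ c ≠ g k j := by
      intro j c h
      rw [hZk] at h
      constructor
      · rintro rfl
        rw [if_pos rfl, one_mul] at h
        exact h rfl
      · rintro rfl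
        split_ifs at h with hj
        · subst hj
          rw [one_mul] at h
          exact h rfl
        · rw [inv_mul_cancel_right] at h
          exact h rfl
    have hsup := support_eq a h1 hfe (fun j c => (f (v k) j c : ℝ) / d)
      (fun j c => if j = k then 1 / (d : ℝ) else if g k j = c then 1 else 0)
      (fun j c => by positivity) (fun j c => by split_ifs <;> positivity)
      (fun j c hc => by
        show (f (v k) j c : ℝ) / d = 0
        rw [h2 j c hc, Nat.cast_zero, zero_div])
      (fun j c hc => by
        obtain ⟨e1, e2⟩ := hne j c hc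
        show (if j = k then 1 / (d : ℝ) else if g k j = c then 1 else 0) = 0
        rw [if_neg e1, if_neg (Ne.symm e2)])
      (fun j => by
        rw [← Finset.sum_div, ← Nat.cast_sum, h3 j, div_self hd0.ne']
        split_ifs with ha
        · simp only [Finset.sum_const, Finset.card_univ, Fintype.card_fin, nsmul_eq_mul]
          field_simp
        · simp)
      (fun c => by
        rw [← Finset.sum_div, ← Nat.cast_sum, h4 c, hv k c]
        have e : ∀ i : Fin n, (if i = k then 1 / (d : ℝ) else if g k i = c then 1 else 0) =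
            (if i = k then 1 / (d : ℝ) else 0) + (if i ≠ k ∧ g k i = c then 1 else 0) := by
          intro i
          by_cases ha : i = k
          · simp [ha]
          · simp [ha]
        simp only [e, Finset.sum_add_distrib, Finset.sum_ite_eq', Finset.mem_univ, if_true,
          Finset.sum_boole]
        push_cast
        field_simp
        ring)
    ext c
    simp only [Finset.mem_univ, iff_true]
    rw [hmem]
    by_contra hcon
    have h5 := hsup k c hcon
    simp only [if_true] at h5
    have : (0 : ℝ) < 1 / d := by positivity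
    linarith

end

section lex

variable {G H : Type*} [Group G] [LinearOrder G] [MulLeftMono G] [MulRightMono G]
  [Group H] [LinearOrder H] [MulLeftMono H] [MulRightMono H]

instance : MulLeftMono (G ×ₗ H) where
  elim c x y h := by
    show c * x ≤ c * y
    replace h : x ≤ y := h
    rw [Prod.Lex.le_iff] at h ⊢
    rcases h with h | ⟨h1, h2⟩
    · left
      show (ofLex c).1 * (ofLex x).1 < (ofLex c).1 * (ofLex y).1
      exact lt_of_le_of_ne (mul_le_mul_right h.le _) fun he => h.ne (mul_left_cancel he)
    · right
      refine ⟨?_, ?_⟩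
      · show (ofLex c).1 * (ofLex x).1 = (ofLex c).1 * (ofLex y).1
        rw [h1]
      · show (ofLex c).2 * (ofLex x).2 ≤ (ofLex c).2 * (ofLex y).2
        exact mul_le_mul_right h2 _

instance : MulRightMono (G ×ₗ H) where
  elim c x y h := by
    show x * c ≤ y * c
    replace h : x ≤ y := h
    rw [Prod.Lex.le_iff] at h ⊢
    rcases h with h | ⟨h1, h2⟩
    · left
      show (ofLex x).1 * (ofLex c).1 < (ofLex y).1 * (ofLex c).1
      exact lt_of_le_of_ne (mul_le_mul_left h.le _) fun he => h.ne (mul_right_cancel he)
    · right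
      refine ⟨?_, ?_⟩
      · show (ofLex x).1 * (ofLex c).1 = (ofLex y).1 * (ofLex c).1
        rw [h1]
      · show (ofLex x).2 * (ofLex c).2 ≤ (ofLex y).2 * (ofLex c).2
        exact mul_le_mul_left h2 _

end lex

variable {G : Type*} [Group G] [LinearOrder G] [MulLeftMono G] [MulRightMono G]

/-- **Families over bi-ordered groups are realised.** -/
theorem tRealized_of_bo (hn : 1 ≤ n) (hd : 1 ≤ d) (a : Fin n → Fin d → G)
    (g : Fin n → Fin n → Fin d)
    (hg : ∀ k j, k ≠ j → ∀ c, c ≠ g k j → a k c * (a j c)⁻¹ < a k (g k j) * (a j (g k j))⁻¹)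
    (v : Fin n → Fin d → ℕ)
    (hv : ∀ k c, v k c = (Finset.univ.filter (fun j => j ≠ k ∧ g k j = c)).card) :
    TRealized n d v := by
  classical
  let H := Multiplicative (Lex ((Fin n ×ₗ Fin d) → ℝ))
  let E : Fin n → Fin d → H := fun j c =>
    Multiplicative.ofAdd (toLex (Pi.single (toLex (j, c)) 1))
  let b : Fin n → Fin d → G ×ₗ H := fun j c => toLex (a j c, E j c)
  refine tRealized_of_gen hn hd b ?_ g ?_ v hv
  · intro X Z h hs hrow hcol
    -- the second components
    let ξ : Fin d → (Fin n ×ₗ Fin d) → ℝ := fun c => ofLex (Multiplicative.toAdd (ofLex (X c)).2)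
    let ζ : Fin n → (Fin n ×ₗ Fin d) → ℝ := fun j => ofLex (Multiplicative.toAdd (ofLex (Z j)).2)
    have h1 : ∀ j c, h j c ≠ 0 → ξ c = ζ j + Pi.single (toLex (j, c)) 1 := by
      intro j c hne
      have h2 : X c = Z j * b j c := by
        by_contra hcon
        exact hne (hs j c hcon)
      show ofLex (Multiplicative.toAdd (ofLex (X c)).2) = _
      rw [h2]
      rfl
    funext j0 c0
    have h2 : ∀ j c, h j c * (ξ c (toLex (j0, c0)) - ζ j (toLex (j0, c0))) =
        if j = j0 ∧ c = c0 then h j c else 0 := by
      intro j c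
      by_cases hjc : h j c = 0
      · simp [hjc]
      · have h3 := congrFun (h1 j c hjc) (toLex (j0, c0))
        rw [Pi.add_apply] at h3
        rw [h3, add_sub_cancel_left]
        by_cases he : j = j0 ∧ c = c0
        · rw [if_pos he, he.1, he.2, Pi.single_eq_same, mul_one]
        · rw [if_neg he, Pi.single_eq_of_ne, mul_zero]
          intro h4
          have h5 : (j0, c0) = (j, c) := toLex.injective h4
          rw [Prod.mk.injEq] at h5
          exact he ⟨h5.1.symm, h5.2.symm⟩
    have h3 : ∑ j, ∑ c, h j c * (ξ c (toLex (j0, c0)) - ζ j (toLex (j0, c0))) = 0 := by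
      simp only [mul_sub, Finset.sum_sub_distrib]
      rw [Finset.sum_comm]
      simp only [← Finset.sum_mul, hrow, hcol, zero_mul, Finset.sum_const_zero, sub_zero]
    simp only [h2] at h3
    rw [Finset.sum_eq_single j0, Finset.sum_eq_single c0] at h3
    · simpa using h3
    · intro c _ hc
      rw [if_neg fun h => hc h.2]
    · simp
    · intro j _ hj
      refine Finset.sum_eq_zero fun c _ => ?_
      rw [if_neg fun h => hj h.1]
    · simp
  · intro k j hkj c hc
    rw [Prod.Lex.lt_iff]
    left
    exact hg k j hkj c hc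

end Pool.Agent.Helper27.BO
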