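import Pool.Agent.Helper27.BO.Round

/-!
# BO: evolutions over a bi-ordered group of times

The times are the elements of a bi-ordered group, all activity takes place in a well-ordered set
`T` of times.  The label `k` sees the label `j` with the delay `M k j > 1` (multiplication from
the left).  At every time every label plays a best response to what it sees, its tie sets being
the colours that were never beaten before.
-/

open scoped BigOperators

namespace Pool.Agent.Helper27.BO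

variable {n d : ℕ}

section closure

variable {Γ : Type*} [Group Γ] [LinearOrder Γ] [MulLeftMono Γ] [MulRightMono Γ]

/-- The submonoid generated by a partially well-ordered set of elements `≥ 1` is partially
well-ordered (Higman). -/
theorem isPWO_closure (s : Set Γ) (hs : s.IsPWO) (h1 : ∀ x ∈ s, 1 ≤ x) :
    (Submonoid.closure s : Set Γ).IsPWO := by
  rw [Submonoid.closure_eq_image_prod]
  refine (hs.partiallyWellOrderedOn_sublistForall₂ (· ≤ ·)).image_of_monotone_on ?_
  exact fun l1 _ l2 hl2 h12 => h12.prod_le_prod' fun x hx => h1 x <| hl2 x hx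

omit [MulLeftMono Γ] in
theorem one_le_closure (s : Set Γ) (h1 : ∀ x ∈ s, 1 ≤ x) : ∀ x ∈ Submonoid.closure s, 1 ≤ x := by
  intro x hx
  induction hx using Submonoid.closure_induction with
  | mem x hx => exact h1 x hx
  | one => exact le_rfl
  | mul x y _ _ hx hy =>
    have := mul_le_mul_left hx y
    rw [one_mul] at this
    exact hy.trans this

end closure

/-- recursion along a well-founded set of times -/
theorem exists_rec {Γ β : Type*} [Preorder Γ] (T : Set Γ) (hT : T.IsWF) (z : β)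
    (F : Γ → (Γ → β) → β) [DecidableRel (fun s t : Γ => s < t)] :
    ∃ a : Γ → β, (∀ t, t ∉ T → a t = z) ∧ ∀ t ∈ T, a t = F t (fun s => if s < t then a s else z) := by
  classical
  have hw : WellFounded (fun s t : T => (s : Γ) < t) := hT
  let A : T → β := hw.fix (fun t ih => F t (fun s => if h : s ∈ T ∧ s < (t : Γ) then
    ih ⟨s, h.1⟩ h.2 else z))
  have hA : ∀ t : T, A t = F t (fun s => if h : s ∈ T ∧ s < (t : Γ) then A ⟨s, h.1⟩ else z) :=
    fun t => hw.fix_eq _ t
  refine ⟨fun t => if h : t ∈ T then A ⟨t, h⟩ else z, fun t ht => dif_neg ht, fun t ht => ?_⟩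
  show (if h : t ∈ T then A ⟨t, h⟩ else z) = _
  rw [dif_pos ht, hA]
  congr 1
  funext s
  by_cases h1 : s < t
  · rw [if_pos h1]
    by_cases h2 : s ∈ T
    · rw [dif_pos ⟨h2, h1⟩]
      show _ = (if h : s ∈ T then A ⟨s, h⟩ else z)
      rw [dif_pos h2]
    · rw [dif_neg fun h => h2 h.1]
      show _ = (if h : s ∈ T then A ⟨s, h⟩ else z)
      rw [dif_neg h2]
  · rw [if_neg h1, dif_neg fun h => h1 h.2]

variable {Γ : Type*} [Group Γ] [LinearOrder Γ] [MulLeftMono Γ] [MulRightMono Γ]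

/-- the difference seen by `k` at `j` in the colour `c` -/
def dif (M : Fin n → Fin n → Γ) (a : Γ → Fin n → Fin d → ℝ) (k j : Fin n) (c : Fin d) (t : Γ) :
    ℝ := a t k c - a ((M k j)⁻¹ * t) j c

/-- `f` beats `g` at the time `t` -/
def Beats (f g : Γ → ℝ) (t : Γ) : Prop := (∀ s, s < t → f s = g s) ∧ g t < f t

/-- the colours of `S k j` that are not beaten at a time of `L` -/
noncomputable def tie (M : Fin n → Fin n → Γ) (S : Fin n → Fin n → Finset (Fin d))
    (a : Γ → Fin n → Fin d → ℝ) (L : Set Γ) (k j : Fin n) : Finset (Fin d) := by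
  classical
  exact (S k j).filter fun c => ∀ c' ∈ S k j, ∀ t ∈ L, ¬ Beats (dif M a k j c') (dif M a k j c) t

omit [MulLeftMono Γ] [MulRightMono Γ] in
theorem mem_tie (M : Fin n → Fin n → Γ) (S : Fin n → Fin n → Finset (Fin d))
    (a : Γ → Fin n → Fin d → ℝ) (L : Set Γ) (k j : Fin n) (c : Fin d) :
    c ∈ tie M S a L k j ↔ c ∈ S k j ∧ ∀ c' ∈ S k j, ∀ t ∈ L,
      ¬ Beats (dif M a k j c') (dif M a k j c) t := by
  classical
  unfold tie
  rw [Finset.mem_filter]

omit [MulLeftMono Γ] [MulRightMono Γ] in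
theorem tie_anti (M : Fin n → Fin n → Γ) (S : Fin n → Fin n → Finset (Fin d))
    (a : Γ → Fin n → Fin d → ℝ) {L L' : Set Γ} (hL : L ⊆ L') (k j : Fin n) :
    tie M S a L' k j ⊆ tie M S a L k j := by
  intro c hc
  rw [mem_tie] at hc ⊢
  exact ⟨hc.1, fun c' hc' t ht => hc.2 c' hc' t (hL ht)⟩

omit [MulLeftMono Γ] [MulRightMono Γ] in
/-- one step -/
theorem tie_step (M : Fin n → Fin n → Γ) (S : Fin n → Fin n → Finset (Fin d))
    (a : Γ → Fin n → Fin d → ℝ) (t : Γ) (k j : Fin n) (c : Fin d)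
    (hc : c ∈ tie M S a (Set.Iio t) k j)
    (hmax : ∀ c' ∈ tie M S a (Set.Iio t) k j, dif M a k j c' t ≤ dif M a k j c t) :
    c ∈ tie M S a (Set.Iic t) k j := by
  rw [mem_tie] at hc ⊢
  refine ⟨hc.1, fun c' hc' s hs hb => ?_⟩
  rcases (show s ≤ t from hs).lt_or_eq with h | h
  · exact hc.2 c' hc' s h hb
  · subst h
    refine absurd hb.2 (not_lt.2 (hmax c' ?_))
    rw [mem_tie]
    refine ⟨hc', fun c'' hc'' r hr hb' => hc.2 c'' hc'' r hr ⟨fun q hq => ?_, ?_⟩⟩
    · rw [hb'.1 q hq, hb.1 q (hq.trans hr)]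
    · rw [← hb.1 r hr]
      exact hb'.2

omit [MulLeftMono Γ] [MulRightMono Γ] in
/-- the tie sets only depend on the past -/
theorem tie_congr (M : Fin n → Fin n → Γ) (S : Fin n → Fin n → Finset (Fin d))
    (a a' : Γ → Fin n → Fin d → ℝ) (t : Γ) (k j : Fin n)
    (h : ∀ c s, s < t → dif M a k j c s = dif M a' k j c s) :
    tie M S a (Set.Iio t) k j = tie M S a' (Set.Iio t) k j := by
  have key : ∀ c c' s, s < t → (Beats (dif M a k j c') (dif M a k j c) s ↔
      Beats (dif M a' k j c') (dif M a' k j c) s) := by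
    intro c c' s hs
    unfold Beats
    rw [h c s hs, h c' s hs]
    refine and_congr_left fun _ => forall_congr' fun r => forall_congr' fun hr => ?_
    rw [h c r (hr.trans hs), h c' r (hr.trans hs)]
  ext c
  rw [mem_tie, mem_tie]
  refine and_congr_right fun _ => forall_congr' fun c' => forall_congr' fun _ =>
    forall_congr' fun s => forall_congr' fun hs => ?_
  rw [key c c' s hs]

/-- the content of the labels -/
def Cont (g g' : Fin n → Fin n → Fin d) : Prop :=
  ∀ k c, (Finset.univ.filter (fun j => j ≠ k ∧ g' k j = c)).card =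
    (Finset.univ.filter (fun j => j ≠ k ∧ g k j = c)).card

omit [MulLeftMono Γ] [MulRightMono Γ] in
/-- limits -/
theorem tie_lim (M : Fin n → Fin n → Γ) (S : Fin n → Fin n → Finset (Fin d))
    (g : Fin n → Fin n → Fin d) (hg : ∀ k j, k ≠ j → g k j ∈ S k j)
    (a : Γ → Fin n → Fin d → ℝ) (T : Set Γ) (L : Set Γ)
    (h0 : ∀ k j, k ≠ j → ∀ c t, t ∉ T → dif M a k j c t = 0)
    (hL : ∀ t ∈ T, t ∈ L → ∃ g' : Fin n → Fin n → Fin d,
      (∀ k j, k ≠ j → g' k j ∈ tie M S a (Set.Iic t) k j) ∧ Cont g g') :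
    ∃ g' : Fin n → Fin n → Fin d, (∀ k j, k ≠ j → g' k j ∈ tie M S a L k j) ∧ Cont g g' := by
  classical
  have hT : ∀ k j, k ≠ j → ∀ c c' t, Beats (dif M a k j c') (dif M a k j c) t → t ∈ T := by
    intro k j hkj c c' t hb
    by_contra hcon
    have := hb.2
    rw [h0 k j hkj c t hcon, h0 k j hkj c' t hcon] at this
    exact lt_irrefl _ this
  by_cases hne : ∃ t, t ∈ T ∧ t ∈ L
  · obtain ⟨m, hm⟩ : ∃ m : Γ → ℕ, ∀ t, m t = ∑ p ∈ Finset.univ.filter
        (fun p : Fin n × Fin n => p.1 ≠ p.2), (tie M S a (Set.Iic t) p.1 p.2).card :=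
      ⟨_, fun _ => rfl⟩
    obtain ⟨t0, ⟨ht0, ht0'⟩, hmin⟩ : ∃ t0, (t0 ∈ T ∧ t0 ∈ L) ∧ ∀ t, t ∈ T → t ∈ L → m t0 ≤ m t := by
      obtain ⟨x, ⟨t0, ht0, rfl⟩, hx⟩ := Nat.lt_wfRel.wf.has_min (m '' {t | t ∈ T ∧ t ∈ L})
        (by obtain ⟨t, ht⟩ := hne; exact ⟨m t, t, ht, rfl⟩)
      exact ⟨t0, ht0, fun t h1 h2 => not_lt.1 (hx (m t) ⟨t, ⟨h1, h2⟩, rfl⟩)⟩
    obtain ⟨g', hg1, hg2⟩ := hL t0 ht0 ht0'
    refine ⟨g', fun k j hkj => ?_, hg2⟩
    have hc := hg1 k j hkj
    rw [mem_tie]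
    refine ⟨((mem_tie M S a _ k j _).1 hc).1, fun c' hc' s hs hb => ?_⟩
    rcases le_or_gt s t0 with h | h
    · exact ((mem_tie M S a _ k j _).1 hc).2 c' hc' s h hb
    · have hsT := hT k j hkj _ _ s hb
      have hsub : ∀ k j, tie M S a (Set.Iic s) k j ⊆ tie M S a (Set.Iic t0) k j := fun k j =>
        tie_anti M S a (Set.Iic_subset_Iic.2 h.le) k j
      have hlt : m s < m t0 := by
        rw [hm, hm]
        refine Finset.sum_lt_sum (fun p _ => Finset.card_le_card (hsub _ _)) ⟨(k, j),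
          Finset.mem_filter.2 ⟨Finset.mem_univ _, hkj⟩, Finset.card_lt_card ?_⟩
        refine ⟨hsub k j, fun h' => ?_⟩
        exact ((mem_tie M S a _ k j _).1 (h' hc)).2 c' hc' s le_rfl hb
      exact absurd hlt (not_lt.2 (hmin s hsT hs))
  · push Not at hne
    refine ⟨g, fun k j hkj => ?_, fun _ _ => rfl⟩
    rw [mem_tie]
    refine ⟨hg k j hkj, fun c' hc' s hs hb => hne s (hT k j hkj _ _ s hb) hs⟩

/-- **The evolution.** -/
theorem evolveT (M : Fin n → Fin n → Γ) (hM : ∀ k j, k ≠ j → 1 < M k j) (T : Set Γ)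
    (hT : T.IsWF) (hT1 : 1 ∈ T) (hpos : ∀ t ∈ T, 1 ≤ t)
    (hTM : ∀ k j, k ≠ j → ∀ t, (M k j)⁻¹ * t ∈ T → t ∈ T)
    (S : Fin n → Fin n → Finset (Fin d))
    (g : Fin n → Fin n → Fin d) (hg : ∀ k j, k ≠ j → g k j ∈ S k j) (a0 : Fin n → Fin d → ℝ)
    (ha0 : ∀ k j, k ≠ j → g k j ∈ amax (S k j) (a0 k)) :
    ∃ a : Γ → Fin n → Fin d → ℝ, (∀ t, t ∉ T → a t = 0) ∧ a 1 = a0 ∧
      (∃ g' : Fin n → Fin n → Fin d, (∀ k j, k ≠ j → g' k j ∈ tie M S a Set.univ k j) ∧
        Cont g g') ∧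
      ∀ t, t ≠ 1 → ∀ k, (∀ j, j ≠ k → ∀ c ∈ S k j, ∀ c' ∈ S k j,
        a ((M k j)⁻¹ * t) j c = a ((M k j)⁻¹ * t) j c') → a t k = 0 := by
  classical
  have hlt : ∀ k j, k ≠ j → ∀ t, (M k j)⁻¹ * t < t := by
    intro k j hkj t
    have h1 : (M k j)⁻¹ < 1 := by
      have h2 : (M k j)⁻¹ ≤ 1 := by
        have := mul_le_mul_right (hM k j hkj).le (M k j)⁻¹
        rwa [mul_one, inv_mul_cancel] at this
      refine lt_of_le_of_ne h2 fun h => ?_
      have h3 : M k j = 1 := by rw [← inv_inv (M k j), h, inv_one]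
      exact (hM k j hkj).ne h3.symm
    have h2 : (M k j)⁻¹ * t ≤ 1 * t := mul_le_mul_left h1.le t
    rw [one_mul] at h2
    refine lt_of_le_of_ne h2 fun h => h1.ne ?_
    have h3 : (M k j)⁻¹ * t = 1 * t := by rw [one_mul]; exact h
    exact mul_right_cancel h3
  -- what has to be satisfied at a time
  let Good : Γ → (Γ → Fin n → Fin d → ℝ) → (Fin n → Fin d → ℝ) → Prop := fun t h α =>
    (∃ g' : Fin n → Fin n → Fin d, (∀ k j, k ≠ j → g' k j ∈ tie M S h (Set.Iio t) k j ∧
      ∀ c ∈ tie M S h (Set.Iio t) k j, α k c - h ((M k j)⁻¹ * t) j c ≤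
        α k (g' k j) - h ((M k j)⁻¹ * t) j (g' k j)) ∧ Cont g g') ∧ (t = 1 → α = a0) ∧
      (t ≠ 1 → ∀ k, (∀ j, j ≠ k → ∀ c ∈ S k j, ∀ c' ∈ S k j,
        h ((M k j)⁻¹ * t) j c = h ((M k j)⁻¹ * t) j c') → α k = 0)
  obtain ⟨a, hout, hrec⟩ := exists_rec (β := Fin n → Fin d → ℝ) T hT 0
    (fun t h => if H : ∃ α, Good t h α then H.choose else 0)
  have hgood : ∀ t ∈ T, (∃ α, Good t (fun s => if s < t then a s else 0) α) →
      Good t (fun s => if s < t then a s else 0) (a t) := by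
    intro t ht H
    have h1 := hrec t ht
    rw [dif_pos H] at h1
    rw [h1]
    exact H.choose_spec
  have hseen : ∀ k j, k ≠ j → ∀ t, (fun s => if s < t then a s else 0) ((M k j)⁻¹ * t) =
      a ((M k j)⁻¹ * t) := by
    intro k j hkj t
    show (if (M k j)⁻¹ * t < t then a ((M k j)⁻¹ * t) else 0) = _
    rw [if_pos (hlt k j hkj t)]
  have htie : ∀ k j, k ≠ j → ∀ t, tie M S (fun s => if s < t then a s else 0) (Set.Iio t) k j =
      tie M S a (Set.Iio t) k j := by
    intro k j hkj t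
    refine tie_congr M S _ _ t k j fun c s hs => ?_
    unfold dif
    show (if s < t then a s else 0) k c - (if (M k j)⁻¹ * s < t then a ((M k j)⁻¹ * s) else 0) j c
      = _
    rw [if_pos hs, if_pos ((hlt k j hkj s).trans hs)]
  have hdif0 : ∀ k j, k ≠ j → ∀ c t, t ∉ T → dif M a k j c t = 0 := by
    intro k j hkj c t ht
    unfold dif
    rw [hout t ht, hout _ fun h => ht (hTM k j hkj t h)]
    simp
  -- the rule at a single time
  have hstep : ∀ t ∈ T, (∃ g' : Fin n → Fin n → Fin d,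
      (∀ k j, k ≠ j → g' k j ∈ tie M S a (Set.Iio t) k j) ∧ Cont g g') →
      Good t (fun s => if s < t then a s else 0) (a t) := by
    intro t ht ⟨g1, hg1, hg1'⟩
    apply hgood t ht
    by_cases ht1 : t = 1
    · -- the initial time
      refine ⟨a0, ⟨g, fun k j hkj => ?_, fun _ _ => rfl⟩, fun _ => rfl, fun h => absurd ht1 h⟩
      rw [htie k j hkj, hseen k j hkj]
      have h1 : ∀ s, s ≤ 1 → a ((M k j)⁻¹ * s) = 0 := by
        intro s hs
        refine hout _ fun h => ?_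
        exact absurd (hpos _ h) (not_le.2 ((hlt k j hkj s).trans_le hs))
      have h2 : ∀ s, s < 1 → ∀ c, dif M a k j c s = 0 := by
        intro s hs c
        refine hdif0 k j hkj c s fun h => absurd (hpos s h) (not_le.2 hs)
      constructor
      · rw [mem_tie]
        refine ⟨hg k j hkj, fun c' _ s hs hb => ?_⟩
        rw [ht1] at hs
        have := hb.2
        rw [h2 s hs, h2 s hs] at this
        exact lt_irrefl _ this
      · intro c hc
        have h3 := ((mem_tie M S a _ k j _).1 hc).1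
        rw [ht1, h1 1 le_rfl]
        simpa using ((mem_amax).1 (ha0 k j hkj)).2 c h3
    · have hex : ∀ k, ∃ (α : Fin d → ℝ) (g' : Fin n → Fin d),
          (∀ j, j ≠ k → g' j ∈ tie M S a (Set.Iio t) k j ∧ ∀ c ∈ tie M S a (Set.Iio t) k j,
            α c - a ((M k j)⁻¹ * t) j c ≤ α (g' j) - a ((M k j)⁻¹ * t) j (g' j)) ∧
          (∀ c, (Finset.univ.filter (fun j => j ≠ k ∧ g' j = c)).card =
            (Finset.univ.filter (fun j => j ≠ k ∧ g1 k j = c)).card) ∧
          ((∀ j, j ≠ k → ∀ c ∈ S k j, ∀ c' ∈ S k j,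
            a ((M k j)⁻¹ * t) j c = a ((M k j)⁻¹ * t) j c') → α = 0) := by
        intro k
        by_cases hk : ∀ j, j ≠ k → ∀ c ∈ S k j, ∀ c' ∈ S k j,
            a ((M k j)⁻¹ * t) j c = a ((M k j)⁻¹ * t) j c'
        · refine ⟨0, g1 k, fun j hj => ⟨hg1 k j hj.symm, fun c hc => ?_⟩, fun _ => rfl,
            fun _ => rfl⟩
          have h1 := ((mem_tie M S a _ k j _).1 hc).1
          have h2 := ((mem_tie M S a _ k j _).1 (hg1 k j hj.symm)).1
          rw [hk j hj c h1 _ h2]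
          simp
        · obtain ⟨α, g', h1, h2⟩ := response k (fun j => tie M S a (Set.Iio t) k j) (g1 k)
            (fun j hj => hg1 k j hj.symm) (fun j c => a ((M k j)⁻¹ * t) j c)
          exact ⟨α, g', h1, h2, fun h => absurd h hk⟩
      choose α g' h1 h2 h3 using hex
      refine ⟨α, ⟨g', fun k j hkj => ?_, fun k c => (h2 k c).trans (hg1' k c)⟩,
        fun h => absurd h ht1, fun _ k hk => h3 k fun j hj c hc c' hc' => ?_⟩
      · rw [htie k j hkj, hseen k j hkj]
        exact h1 k j hkj.symm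
      · have := hk j hj c hc c' hc'
        rw [hseen k j hj.symm] at this
        exact this
  have hall : ∀ t ∈ T, ∃ g' : Fin n → Fin n → Fin d,
      (∀ k j, k ≠ j → g' k j ∈ tie M S a (Set.Iic t) k j) ∧ Cont g g' := by
    intro t ht
    have hw : WellFounded (fun s t : T => (s : Γ) < t) := hT
    suffices H : ∀ t : T, ∃ g' : Fin n → Fin n → Fin d,
        (∀ k j, k ≠ j → g' k j ∈ tie M S a (Set.Iic (t : Γ)) k j) ∧ Cont g g' from H ⟨t, ht⟩
    intro t
    induction t using hw.induction with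
    | _ t ih =>
    obtain ⟨⟨g', h1, h2⟩, -, -⟩ := hstep t t.2 (tie_lim M S g hg a T (Set.Iio (t : Γ)) hdif0
      fun s hs hst => ih ⟨s, hs⟩ hst)
    refine ⟨g', fun k j hkj => ?_, h2⟩
    obtain ⟨h3, h4⟩ := h1 k j hkj
    rw [htie k j hkj] at h3 h4
    refine tie_step M S a t k j _ h3 fun c hc => ?_
    have := h4 c hc
    rw [hseen k j hkj] at this
    exact this
  have hgd : ∀ t ∈ T, Good t (fun s => if s < t then a s else 0) (a t) := fun t ht =>
    hstep t ht (tie_lim M S g hg a T (Set.Iio t) hdif0 fun s hs _ => hall s hs)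
  refine ⟨a, hout, (hgd 1 hT1).2.1 rfl, tie_lim M S g hg a T Set.univ hdif0
    fun s hs _ => hall s hs, fun t ht1 k hk => ?_⟩
  by_cases ht : t ∈ T
  · refine (hgd t ht).2.2 ht1 k fun j hj c hc c' hc' => ?_
    rw [hseen k j hj.symm]
    exact hk j hj c hc c' hc'
  · rw [hout t ht]
    rfl

end Pool.Agent.Helper27.BO
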