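import Pool.Agent.Helper27.BO.Weak
import Pool.Agent.Helper43.SOC.Choice
import Pool.Agent.Helper13.TW.Real

/-!
# BO: equilibria over bi-ordered groups, sets of positions
-/

open scoped BigOperators

namespace Pool.Agent.Helper27.BO

open Finset
open Pool.Agent.Helper28.SO (TreeFam TRealized mergeV Realized)
open Helper13.TS (fold sum_fold fold_mergeV)

universe u

variable {n d e : ℕ} {G : Type u} [Group G] [LinearOrder G] [MulLeftMono G] [MulRightMono G]

/-- **Equilibria over bi-ordered groups.** -/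
theorem tRealized_of_equilibrium (hn : 1 ≤ n) (hd : 1 ≤ d) (a : Fin n → Fin d → G)
    (hne : ∀ k j, k ≠ j → ∃ c c', a k c * (a j c)⁻¹ ≠ a k c' * (a j c')⁻¹)
    (v : Fin n → Fin d → ℕ)
    (p : Fin n → Fin n → Fin d → ℝ) (p0 : ∀ k j, k ≠ j → ∀ c, 0 ≤ p k j c)
    (p1 : ∀ k j, k ≠ j → ∑ c, p k j c = 1)
    (p2 : ∀ k j, k ≠ j → ∀ c, p k j c ≠ 0 → ∀ c', a k c' * (a j c')⁻¹ ≤ a k c * (a j c)⁻¹)
    (hv : ∀ k c, (v k c : ℝ) = ∑ j ∈ univ.erase k, p k j c) : TRealized n d v := by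
  classical
  obtain ⟨S, hS⟩ : ∃ S : Fin n → Fin n → Finset (Fin d), ∀ k j c, c ∈ S k j ↔
      ∀ c', a k c' * (a j c')⁻¹ ≤ a k c * (a j c)⁻¹ :=
    ⟨fun k j => univ.filter fun c => ∀ c', a k c' * (a j c')⁻¹ ≤ a k c * (a j c)⁻¹,
      fun k j c => by simp⟩
  have hch : ∀ k, ∃ g : Fin n → Fin d, (∀ j, j ≠ k → g j ∈ S k j) ∧
      ∀ c, (univ.filter (fun j => j ≠ k ∧ g j = c)).card = v k c := by
    intro k
    obtain ⟨g, hg, hc⟩ := Pool.Agent.Helper43.SOC.exists_choice (J := {j : Fin n // j ≠ k})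
      (fun j => S k j) (v k) (fun j c => p k j c) (fun j c => p0 k j (Ne.symm j.2) c)
      (fun j c hc => by
        by_contra h
        exact hc ((hS k j c).2 (p2 k j (Ne.symm j.2) c h))) (fun j => p1 k j (Ne.symm j.2))
      (fun c => by
        rw [hv k c]
        have h2 : ∀ j : Fin n, j ∈ univ.erase k ↔ j ≠ k := by
          intro j
          simp
        exact (Finset.sum_subtype (univ.erase k) h2 (fun j => p k j c)).symm)
    obtain ⟨g', hg'⟩ : ∃ g' : Fin n → Fin d, ∀ j (h : j ≠ k), g' j = g ⟨j, h⟩ :=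
      ⟨fun j => if h : j ≠ k then g ⟨j, h⟩ else ⟨0, hd⟩, fun j h => dif_pos h⟩
    refine ⟨g', fun j hj => ?_, fun c => ?_⟩
    · rw [hg' j hj]
      exact hg ⟨j, hj⟩
    · rw [← hc c]
      symm
      refine Finset.card_bij (fun j _ => (j : Fin n)) (fun j hj => ?_)
        (fun i _ j _ hij => Subtype.ext hij) (fun j hj => ?_)
      · rw [Finset.mem_filter] at hj ⊢
        refine ⟨mem_univ _, j.2, ?_⟩
        rw [hg' j j.2]
        exact hj.2
      · rw [Finset.mem_filter] at hj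
        refine ⟨⟨j, hj.2.1⟩, ?_, rfl⟩
        rw [Finset.mem_filter]
        refine ⟨mem_univ _, ?_⟩
        have := hj.2.2
        rw [hg' j hj.2.1] at this
        exact this
  choose g hg hgv using hch
  exact tRealized_of_bo_weak hn hd a hne g (fun k j hkj => (hS k j _).1 (hg k j hkj.symm)) v
    fun k c => (hgv k c).symm

/-- The same for a set of positions, with merged colours. -/
theorem realized_of_equilibrium (hn : 1 ≤ n) (he : 2 ≤ e) (U : Finset (Fin d → ℕ))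
    (hU : U.card = n) (g : Fin d → Fin e) (hg : Function.Surjective g)
    (a : (Fin d → ℕ) → Fin e → G)
    (ha : ∀ v ∈ U, ∀ w ∈ U, v ≠ w → ∃ c c', a v c * (a w c)⁻¹ ≠ a v c' * (a w c')⁻¹)
    (p : (Fin d → ℕ) → (Fin d → ℕ) → Fin e → ℝ)
    (p0 : ∀ v ∈ U, ∀ w ∈ U, v ≠ w → ∀ c, 0 ≤ p v w c)
    (p1 : ∀ v ∈ U, ∀ w ∈ U, v ≠ w → ∑ c, p v w c = 1)
    (p2 : ∀ v ∈ U, ∀ w ∈ U, v ≠ w → ∀ c, p v w c ≠ 0 →
      ∀ c', a v c' * (a w c')⁻¹ ≤ a v c * (a w c)⁻¹)
    (hv : ∀ v ∈ U, ∀ x, ((∑ c ∈ univ.filter (fun c => g c = x), v c : ℕ) : ℝ) =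
      ∑ w ∈ U.erase v, p v w x) : Realized n d U := by
  classical
  have hd : 1 ≤ d := by
    obtain ⟨c, -⟩ := hg ⟨0, by omega⟩
    have := c.2
    omega
  let φ : Fin n ≃ U := (finCongr hU.symm).trans U.equivFin.symm
  let V : Fin n → Fin d → ℕ := fun k => (φ k : Fin d → ℕ)
  have hVU : ∀ k, V k ∈ U := fun k => (φ k).2
  have hinj : Function.Injective V := fun i j hij => φ.injective (Subtype.ext hij)
  have himg : ∀ k, (univ.erase k).image V = U.erase (V k) := by
    intro k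
    ext w
    simp only [Finset.mem_image, Finset.mem_erase, Finset.mem_univ, and_true]
    constructor
    · rintro ⟨j, hj, rfl⟩
      exact ⟨fun h => hj (hinj h), hVU j⟩
    · rintro ⟨hne, hw⟩
      refine ⟨φ.symm ⟨w, hw⟩, fun h => hne ?_, ?_⟩
      · show w = V k
        rw [← h]
        show w = ((φ (φ.symm ⟨w, hw⟩) : U) : Fin d → ℕ)
        rw [Equiv.apply_symm_apply]
      · show ((φ (φ.symm ⟨w, hw⟩) : U) : Fin d → ℕ) = w
        rw [Equiv.apply_symm_apply]
  have hT : TRealized n d V := by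
    refine Helper13.TW.tRealized_of_surj hn he d V g hg ?_
    refine tRealized_of_equilibrium hn (by omega) (fun k => a (V k))
      (fun k j hkj => ha _ (hVU k) _ (hVU j) fun h => hkj (hinj h)) _
      (fun k j => p (V k) (V j)) (fun k j hkj => p0 _ (hVU k) _ (hVU j) fun h => hkj (hinj h))
      (fun k j hkj => p1 _ (hVU k) _ (hVU j) fun h => hkj (hinj h))
      (fun k j hkj => p2 _ (hVU k) _ (hVU j) fun h => hkj (hinj h)) ?_
    intro k x
    have h1 := hv (V k) (hVU k) x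
    show ((fold g (V k) x : ℕ) : ℝ) = _
    unfold Helper13.TS.fold
    rw [h1, ← himg k, Finset.sum_image fun a _ b _ hab => hinj hab]
  refine hT.realized hn hd U ?_
  intro u
  constructor
  · intro hu
    refine ⟨φ.symm ⟨u, hu⟩, ?_⟩
    show ((φ (φ.symm ⟨u, hu⟩) : U) : Fin d → ℕ) = u
    rw [Equiv.apply_symm_apply]
  · rintro ⟨k, rfl⟩
    exact hVU k

end Pool.Agent.Helper27.BO
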