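import Pool.Agent.Helper27.BO.Duality

/-!
# BO: best responses
-/

open scoped BigOperators

namespace Pool.Agent.Helper27.BO

variable {n d : ℕ}

/-- **Best response.**  The label `k` sees the label `j` in a colour `g j` of the tie set `S j`.
For arbitrary displacements `w j` there are own displacements `α` such that the same content is
realised by colours `g' j ∈ S j` where `α - w j` is maximal on `S j`. -/
theorem response (k : Fin n) (S : Fin n → Finset (Fin d)) (g : Fin n → Fin d)
    (hg : ∀ j, j ≠ k → g j ∈ S j) (w : Fin n → Fin d → ℝ) :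
    ∃ (α : Fin d → ℝ) (g' : Fin n → Fin d),
      (∀ j, j ≠ k → g' j ∈ S j ∧ ∀ c ∈ S j, α c - w j c ≤ α (g' j) - w j (g' j)) ∧
      ∀ c, (Finset.univ.filter (fun j => j ≠ k ∧ g' j = c)).card =
        (Finset.univ.filter (fun j => j ≠ k ∧ g j = c)).card := by
  classical
  obtain ⟨X, Z, f, h1, h2, h3, h4⟩ := duality (G := Multiplicative ℝ)
    (fun j c => Multiplicative.ofAdd (w j c)) (fun j => if j = k then ∅ else S j)
    (fun j => if j = k then 0 else 1)
    (fun c => (Finset.univ.filter (fun j => j ≠ k ∧ g j = c)).card)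
    (fun j c => if j ≠ k ∧ g j = c then 1 else 0) (fun j c hc => by
      by_cases hj : j = k
      · simp [hj]
      · rw [if_neg hj] at hc
        rw [if_neg]
        rintro ⟨-, rfl⟩
        exact hc (hg j hj)) (fun j => by
      by_cases hj : j = k
      · simp [hj]
      · simp [hj]) (fun c => by
      rw [Finset.card_filter])
  have hex : ∀ j, ∃ c, j ≠ k → f j c ≠ 0 ∧ ∀ c', c' ≠ c → f j c' = 0 := by
    intro j
    by_cases hj : j = k
    · exact ⟨g j, fun h => absurd hj h⟩
    · have h5 := h3 j
      rw [if_neg hj] at h5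
      have h6 : ∃ c, f j c ≠ 0 := by
        by_contra hcon
        push Not at hcon
        rw [Finset.sum_eq_zero fun c _ => hcon c] at h5
        exact absurd h5 (by norm_num)
      obtain ⟨c, hc⟩ := h6
      refine ⟨c, fun _ => ⟨hc, fun c' hc' => ?_⟩⟩
      by_contra hne
      have h7 : f j c + f j c' ≤ ∑ b, f j b := by
        rw [← Finset.sum_pair (f := fun b => f j b) (Ne.symm hc')]
        exact Finset.sum_le_sum_of_subset (Finset.subset_univ _)
      omega
  choose g' hg' using hex
  refine ⟨fun c => Multiplicative.toAdd (X c), g', fun j hj => ?_, fun c => ?_⟩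
  · obtain ⟨h5, h6⟩ := h2 j (g' j) (hg' j hj).1
    rw [if_neg hj] at h5
    refine ⟨h5, fun c hc => ?_⟩
    have h7 := h1 j c (by rw [if_neg hj]; exact hc)
    have h8 : Multiplicative.toAdd (X c) ≤ Multiplicative.toAdd (Z j) + w j c := h7
    have h9 : Multiplicative.toAdd (X (g' j)) = Multiplicative.toAdd (Z j) + w j (g' j) := by
      rw [h6]
      rfl
    show Multiplicative.toAdd (X c) - w j c ≤ Multiplicative.toAdd (X (g' j)) - w j (g' j)
    rw [h9]
    linarith
  · rw [← h4 c, Finset.card_filter]
    refine Finset.sum_congr rfl fun j _ => ?_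
    by_cases hj : j = k
    · rw [if_neg fun h => h.1 hj]
      have h5 := h3 j
      rw [if_pos hj] at h5
      exact ((Finset.sum_eq_zero_iff.1 h5) c (Finset.mem_univ c)).symm
    · obtain ⟨h5, h6⟩ := hg' j hj
      by_cases hc : g' j = c
      · rw [if_pos ⟨hj, hc⟩, ← hc]
        have h7 := h3 j
        rw [if_neg hj, Finset.sum_eq_single (g' j) (fun c _ hc => h6 c hc) (by simp)] at h7
        exact h7.symm
      · rw [if_neg fun h => hc h.2, h6 c (Ne.symm hc)]

end Pool.Agent.Helper27.BO
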