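import Pool.Agent.Helper27.BO.Shift
import Pool.Agent.Helper27.BO.Main

/-!
# BO: iteration of rounds

A round breaks some ties by a perturbation in one channel (a sequence over the times `0, 1, 2, ..`,
the label `k` sees the label `j` with the delay `M k j`).  Channels of later rounds are infinitely
smaller.  Iterating the rounds until all ties are broken gives a family over a bi-ordered group.
-/

open scoped BigOperators

namespace Pool.Agent.Helper27.BO

open Pool.Agent.Helper28.SO (TRealized)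

variable {n d : ℕ}

/-- the sequence of the differences seen by `k` at `j` in the colour `c` -/
def seqD (M : Fin n → Fin n → ℕ) (a : ℕ → Fin n → Fin d → ℝ) (k j : Fin n) (c : Fin d) (t : ℕ) :
    ℝ := a t k c - (if M k j ≤ t then a (t - M k j) j c else 0)

/-- strict lexicographic comparison of sequences -/
def LexLt (f g : ℕ → ℝ) : Prop := ∃ t, (∀ s, s < t → f s = g s) ∧ f t < g t

/-- the statement of one round -/
def Round (n d : ℕ) : Prop :=
  ∀ (M : Fin n → Fin n → ℕ) (y : Fin n → Fin d → ℤ), (∀ k j, k ≠ j → 1 ≤ M k j) →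
  ∀ (S : Fin n → Fin n → Finset (Fin d)), (∀ k j, k ≠ j → ∀ c ∈ S k j, y j c < y k c) →
  ∀ (g : Fin n → Fin n → Fin d), (∀ k j, k ≠ j → g k j ∈ S k j) →
  (∃ k j, k ≠ j ∧ 1 < (S k j).card) →
  ∃ (a : ℕ → Fin n → Fin d → ℝ) (S' : Fin n → Fin n → Finset (Fin d)) (g' : Fin n → Fin n → Fin d),
    (∀ k j, k ≠ j → ∀ c, c ∈ S' k j ↔ c ∈ S k j ∧ ∀ c' ∈ S k j,
      (∀ t, seqD M a k j c' t = seqD M a k j c t) ∨
        LexLt (seqD M a k j c') (seqD M a k j c)) ∧
    (∀ k j, k ≠ j → g' k j ∈ S' k j) ∧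
    (∀ k c, (Finset.univ.filter (fun j => j ≠ k ∧ g' k j = c)).card =
      (Finset.univ.filter (fun j => j ≠ k ∧ g k j = c)).card) ∧
    ∃ k j, k ≠ j ∧ S' k j ≠ S k j

/-- the group element of the time `t` -/
def tm (t : ℤ) : Multiplicative ℤ := Multiplicative.ofAdd t

/-- the Hahn series of a sequence -/
noncomputable def ser (f : ℕ → ℝ) : HahnSeries (Multiplicative ℤ) ℝ where
  coeff e := if 0 ≤ Multiplicative.toAdd e then f (Multiplicative.toAdd e).toNat else 0
  isPWO_support' := by
    apply Set.IsWF.isPWO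
    apply BddBelow.isWF
    refine ⟨tm 0, fun e he => ?_⟩
    by_contra hcon
    apply he
    have : ¬ (0 ≤ Multiplicative.toAdd e) := hcon
    simp [this]

theorem coeff_ser (f : ℕ → ℝ) (e : ℤ) :
    (ser f).coeff (tm e) = if 0 ≤ e then f e.toNat else 0 := rfl

theorem coeff_sub_trans (M : Fin n → Fin n → ℕ) (a : ℕ → Fin n → Fin d → ℝ) (k j : Fin n)
    (c : Fin d) (e : ℤ) :
    (ser (fun t => a t k c) - trans (tm (M k j)) (ser (fun t => a t j c))).coeff (tm e) =
      if 0 ≤ e then seqD M a k j c e.toNat else 0 := by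
  have h1 : (tm (M k j))⁻¹ * tm e = tm (e - M k j) := by
    show Multiplicative.ofAdd (-(M k j : ℤ) + e) = Multiplicative.ofAdd (e - M k j)
    congr 1
    ring
  rw [HahnSeries.coeff_sub, coeff_trans, h1, coeff_ser, coeff_ser]
  by_cases he : 0 ≤ e
  · rw [if_pos he, if_pos he]
    unfold seqD
    congr 1
    by_cases h2 : M k j ≤ e.toNat
    · rw [if_pos (by omega), if_pos h2]
      congr 1
      omega
    · rw [if_neg (by omega), if_neg h2]
  · rw [if_neg he, if_neg he, if_neg (by omega), sub_zero]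

/-- the action of the Laurent part -/
noncomputable abbrev A0 : Act (Multiplicative ℤ) (Lex (HahnSeries (Multiplicative ℤ) ℝ)) :=
  hahnAct (Multiplicative ℤ)

theorem ser_eq (M : Fin n → Fin n → ℕ) (a : ℕ → Fin n → Fin d → ℝ) (k j : Fin n) (c c' : Fin d)
    (h : ∀ t, seqD M a k j c' t = seqD M a k j c t) :
    toLex (ser (fun t => a t k c')) - A0.s (tm (M k j)) (toLex (ser (fun t => a t j c'))) =
      toLex (ser (fun t => a t k c)) - A0.s (tm (M k j)) (toLex (ser (fun t => a t j c))) := by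
  apply ofLex.injective
  show ser (fun t => a t k c') - trans (tm (M k j)) (ser (fun t => a t j c')) =
    ser (fun t => a t k c) - trans (tm (M k j)) (ser (fun t => a t j c))
  ext e
  have he : e = tm (Multiplicative.toAdd e) := rfl
  rw [he, coeff_sub_trans, coeff_sub_trans]
  split_ifs
  · exact h _
  · rfl

theorem ser_lt (M : Fin n → Fin n → ℕ) (a : ℕ → Fin n → Fin d → ℝ) (k j : Fin n) (c c' : Fin d)
    (h : LexLt (seqD M a k j c') (seqD M a k j c)) :
    toLex (ser (fun t => a t k c')) - A0.s (tm (M k j)) (toLex (ser (fun t => a t j c'))) <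
      toLex (ser (fun t => a t k c)) - A0.s (tm (M k j)) (toLex (ser (fun t => a t j c))) := by
  obtain ⟨t, h1, h2⟩ := h
  rw [HahnSeries.lt_iff]
  refine ⟨tm t, fun e he => ?_, ?_⟩
  · show (ser (fun t => a t k c') - trans (tm (M k j)) (ser (fun t => a t j c'))).coeff e =
      (ser (fun t => a t k c) - trans (tm (M k j)) (ser (fun t => a t j c))).coeff e
    have hee : e = tm (Multiplicative.toAdd e) := rfl
    have he' : Multiplicative.toAdd e < t := he
    rw [hee, coeff_sub_trans, coeff_sub_trans]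
    split_ifs with h0
    · exact h1 _ (by omega)
    · rfl
  · show (ser (fun t => a t k c') - trans (tm (M k j)) (ser (fun t => a t j c'))).coeff (tm t) <
      (ser (fun t => a t k c) - trans (tm (M k j)) (ser (fun t => a t j c))).coeff (tm t)
    rw [coeff_sub_trans, coeff_sub_trans, if_pos (by omega), if_pos (by omega), Int.toNat_natCast]
    exact h2

theorem LexLt.trans_eq {f g h : ℕ → ℝ} (h1 : LexLt f g) (h2 : ∀ t, g t = h t) : LexLt f h := by
  have : g = h := funext h2
  rwa [← this]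

theorem LexLt.asymm {f g : ℕ → ℝ} (h1 : LexLt f g) (h2 : LexLt g f) : False := by
  obtain ⟨t, a1, a2⟩ := h1
  obtain ⟨s, b1, b2⟩ := h2
  rcases lt_trichotomy s t with h | h | h
  · rw [a1 s h] at b2
    exact lt_irrefl _ b2
  · subst h
    exact lt_asymm a2 b2
  · rw [b1 t h] at a2
    exact lt_irrefl _ a2

theorem LexLt.ne {f g : ℕ → ℝ} (h1 : LexLt f g) (h2 : ∀ t, f t = g t) : False := by
  obtain ⟨t, -, a2⟩ := h1
  exact a2.ne (h2 t)

/-- the result of the iteration -/
def Resolved (M : Fin n → Fin n → ℕ) (S : Fin n → Fin n → Finset (Fin d))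
    (g : Fin n → Fin n → Fin d) : Prop :=
  ∃ (W : Type) (_ : AddCommGroup W) (_ : LinearOrder W) (_ : IsOrderedAddMonoid W)
    (A : Act (Multiplicative ℤ) W) (b : Fin n → Fin d → W) (g' : Fin n → Fin n → Fin d),
    (∀ k j, k ≠ j → g' k j ∈ S k j ∧ ∀ c ∈ S k j, c ≠ g' k j →
      b k c - A.s (tm (M k j)) (b j c) < b k (g' k j) - A.s (tm (M k j)) (b j (g' k j))) ∧
    ∀ k c, (Finset.univ.filter (fun j => j ≠ k ∧ g' k j = c)).card =
      (Finset.univ.filter (fun j => j ≠ k ∧ g k j = c)).card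

theorem resolved_of_round (hR : Round n d) (M : Fin n → Fin n → ℕ) (y : Fin n → Fin d → ℤ)
    (hM : ∀ k j, k ≠ j → 1 ≤ M k j) :
    ∀ (N : ℕ) (S : Fin n → Fin n → Finset (Fin d)), (∀ k j, k ≠ j → ∀ c ∈ S k j, y j c < y k c) →
      ∀ (g : Fin n → Fin n → Fin d), (∀ k j, k ≠ j → g k j ∈ S k j) →
      ∑ p ∈ Finset.univ.filter (fun p : Fin n × Fin n => p.1 ≠ p.2), (S p.1 p.2).card ≤ N →
      Resolved M S g := by
  classical
  intro N
  induction N using Nat.strong_induction_on with
  | _ N ih =>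
  intro S hS g hg hN
  by_cases hne : ∃ k j, k ≠ j ∧ 1 < (S k j).card
  · obtain ⟨a, S', g1, h1, h2, h3, k0, j0, hkj0, hS0⟩ := hR M y hM S hS g hg hne
    have hsub : ∀ k j, k ≠ j → S' k j ⊆ S k j := fun k j hkj c hc => ((h1 k j hkj c).1 hc).1
    have hlt : ∑ p ∈ Finset.univ.filter (fun p : Fin n × Fin n => p.1 ≠ p.2), (S' p.1 p.2).card <
        ∑ p ∈ Finset.univ.filter (fun p : Fin n × Fin n => p.1 ≠ p.2), (S p.1 p.2).card := by
      refine Finset.sum_lt_sum (fun p hp => Finset.card_le_card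
        (hsub _ _ (Finset.mem_filter.1 hp).2)) ⟨(k0, j0), Finset.mem_filter.2
          ⟨Finset.mem_univ _, hkj0⟩, Finset.card_lt_card ?_⟩
      exact lt_of_le_of_ne (hsub k0 j0 hkj0) hS0
    obtain ⟨W, i1, i2, i3, A, b, g', hb, hg'⟩ := ih _ (lt_of_lt_of_le hlt hN) S'
      (fun k j hkj c hc => hS k j hkj c (hsub k j hkj hc)) g1 h2 le_rfl
    refine ⟨Lex (HahnSeries (Multiplicative ℤ) ℝ) ×ₗ W, inferInstance, inferInstance,
      inferInstance, A0.prod A, fun k c => toLex (toLex (ser (fun t => a t k c)), b k c), g',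
      fun k j hkj => ?_, fun k c => (hg' k c).trans (h3 k c)⟩
    obtain ⟨hm, hlt'⟩ := hb k j hkj
    refine ⟨hsub k j hkj hm, fun c hc hcg => ?_⟩
    obtain ⟨-, hmax⟩ := (h1 k j hkj (g' k j)).1 hm
    rw [Prod.Lex.lt_iff]
    by_cases hcS : c ∈ S' k j
    · right
      refine ⟨?_, hlt' c hcS hcg⟩
      refine ser_eq M a k j (g' k j) c ?_
      rcases hmax c hc with h | h
      · exact h
      · exfalso
        rcases ((h1 k j hkj c).1 hcS).2 (g' k j) (hsub k j hkj hm) with h' | h'
        · exact h.ne fun t => (h' t).symm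
        · exact h.asymm h'
    · left
      refine ser_lt M a k j (g' k j) c ?_
      rcases hmax c hc with h | h
      · exfalso
        apply hcS
        refine (h1 k j hkj c).2 ⟨hc, fun c' hc' => ?_⟩
        rcases hmax c' hc' with h' | h'
        · exact Or.inl fun t => (h' t).trans (h t).symm
        · exact Or.inr (h'.trans_eq fun t => (h t).symm)
      · exact h
  · push Not at hne
    refine ⟨ℤ, inferInstance, inferInstance, inferInstance, Act.triv _ _, fun _ _ => 0, g,
      fun k j hkj => ⟨hg k j hkj, fun c hc hcg => ?_⟩, fun _ _ => rfl⟩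
    exact absurd (Finset.card_le_one.1 (hne k j hkj) c hc (g k j) (hg k j hkj)) hcg

/-- **Theorem E, integer form** (given the round): if `y` has integer entries, the rows have sum
zero and are pairwise different, and `g k j` is a colour where `y k - y j` is maximal, then the
contents of the `g k` are realised. -/
theorem tRealized_of_int (hR : Round n d) (hn : 1 ≤ n) (hd : 1 ≤ d) (y : Fin n → Fin d → ℤ)
    (hsum : ∀ k, ∑ c, y k c = 0) (hinj : Function.Injective y) (g : Fin n → Fin n → Fin d)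
    (hg : ∀ k j, k ≠ j → ∀ c, y k c - y j c ≤ y k (g k j) - y j (g k j))
    (v : Fin n → Fin d → ℕ)
    (hv : ∀ k c, v k c = (Finset.univ.filter (fun j => j ≠ k ∧ g k j = c)).card) :
    TRealized n d v := by
  classical
  -- the maxima are positive
  have hpos : ∀ k j, k ≠ j → 1 ≤ y k (g k j) - y j (g k j) := by
    intro k j hkj
    by_contra hcon
    have h1 : ∀ c, y k c - y j c ≤ 0 := fun c => (hg k j hkj c).trans (by omega)
    have h2 : ∑ c, (y k c - y j c) = 0 := by
      rw [Finset.sum_sub_distrib, hsum, hsum, sub_zero]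
    have h3 : ∀ c, y k c - y j c = 0 := by
      intro c
      have := (Finset.sum_eq_zero_iff_of_nonpos (fun c _ => h1 c)).1 h2 c (Finset.mem_univ c)
      exact this
    apply hkj
    apply hinj
    ext c
    have := h3 c
    omega
  obtain ⟨M, hM⟩ : ∃ M : Fin n → Fin n → ℕ, ∀ k j, M k j = (y k (g k j) - y j (g k j)).toNat :=
    ⟨_, fun _ _ => rfl⟩
  have hM' : ∀ k j, k ≠ j → (M k j : ℤ) = y k (g k j) - y j (g k j) := by
    intro k j hkj
    have := hpos k j hkj
    rw [hM]
    omega
  obtain ⟨S, hS⟩ : ∃ S : Fin n → Fin n → Finset (Fin d), ∀ k j c, c ∈ S k j ↔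
      y k c - y j c = y k (g k j) - y j (g k j) :=
    ⟨fun k j => Finset.univ.filter fun c => y k c - y j c = y k (g k j) - y j (g k j),
      fun k j c => by simp⟩
  obtain ⟨W, i1, i2, i3, A, b, g', hb, hg'⟩ := resolved_of_round hR M y (fun k j hkj => by
      have := hpos k j hkj
      have := hM' k j hkj
      omega) _ S (fun k j hkj c hc => by
      rw [hS] at hc
      have := hpos k j hkj
      omega) g (fun k j _ => (hS k j _).2 rfl) le_rfl
  refine tRealized_of_bo hn hd (G := SD A) (fun k c => ⟨tm (y k c), b k c⟩) g' ?_ v fun k c => by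
    rw [hv, hg']
  intro k j hkj c hc
  rw [SD.lt_iff, SD.mul_inv_m, SD.mul_inv_m, SD.mul_inv_w, SD.mul_inv_w]
  obtain ⟨h1, h2⟩ := hb k j hkj
  have e1 : ∀ c, tm (y k c) * (tm (y j c))⁻¹ = tm (y k c - y j c) := by
    intro c
    show Multiplicative.ofAdd (y k c + -y j c) = _
    rw [← sub_eq_add_neg]
    rfl
  simp only [e1]
  have e2 : y k (g' k j) - y j (g' k j) = M k j := by
    rw [(hS k j _).1 h1, hM' k j hkj]
  by_cases hcS : c ∈ S k j
  · right
    have e3 : y k c - y j c = M k j := by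
      rw [(hS k j _).1 hcS, hM' k j hkj]
    rw [e2, e3]
    exact ⟨rfl, h2 c hcS hc⟩
  · left
    show y k c - y j c < y k (g' k j) - y j (g' k j)
    rw [e2, hM' k j hkj]
    refine lt_of_le_of_ne (hg k j hkj c) fun h => hcS ((hS k j c).2 h)

end Pool.Agent.Helper27.BO
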