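import Pool.Agent.Helper27.BO.Resp
import Pool.Agent.Helper27.BO.Tower

/-!
# BO: one round
-/

open scoped BigOperators

namespace Pool.Agent.Helper27.BO

variable {n d : ℕ}

theorem exists_seq {α : Type} (P : ℕ → α → Prop) (R : ℕ → α → α → Prop) (s0 : α) (h0 : P 0 s0)
    (hstep : ∀ t s, P t s → ∃ s', P (t + 1) s' ∧ R t s s') :
    ∃ f : ℕ → α, f 0 = s0 ∧ ∀ t, P t (f t) ∧ R t (f t) (f (t + 1)) := by
  classical
  choose F hF using hstep
  let G : ∀ t : ℕ, {s // P t s} := fun t => Nat.rec ⟨s0, h0⟩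
    (fun t s => ⟨F t s.1 s.2, (hF t s.1 s.2).1⟩) t
  exact ⟨fun t => (G t).1, rfl, fun t => ⟨(G t).2, (hF t (G t).1 (G t).2).2⟩⟩

/-- the displacement of `j` seen by `k` at the time `t` -/
def disp (M : Fin n → Fin n → ℕ) (a : ℕ → Fin n → Fin d → ℝ) (t : ℕ) (k j : Fin n) (c : Fin d) :
    ℝ := if M k j ≤ t then a (t - M k j) j c else 0

theorem seqD_eq (M : Fin n → Fin n → ℕ) (a : ℕ → Fin n → Fin d → ℝ) (k j : Fin n) (c : Fin d)
    (t : ℕ) : seqD M a k j c t = a t k c - disp M a t k j c := rfl

/-- the colours of a set where a function is maximal -/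
noncomputable def amax (S : Finset (Fin d)) (f : Fin d → ℝ) : Finset (Fin d) :=
  S.filter fun c => ∀ c' ∈ S, f c' ≤ f c

theorem mem_amax {S : Finset (Fin d)} {f : Fin d → ℝ} {c : Fin d} :
    c ∈ amax S f ↔ c ∈ S ∧ ∀ c' ∈ S, f c' ≤ f c := by
  simp [amax]

theorem amax_const {S : Finset (Fin d)} {f : Fin d → ℝ} (h : ∀ c ∈ S, ∀ c' ∈ S, f c = f c') :
    amax S f = S := by
  ext c
  rw [mem_amax]
  exact ⟨fun h => h.1, fun hc => ⟨hc, fun c' hc' => (h c' hc' c hc).le⟩⟩

/-- the evolution with prescribed values at the time `0` -/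
theorem evolve (M : Fin n → Fin n → ℕ) (hM : ∀ k j, k ≠ j → 1 ≤ M k j)
    (S : Fin n → Fin n → Finset (Fin d)) (g : Fin n → Fin n → Fin d) (a0 : Fin n → Fin d → ℝ)
    (hg : ∀ k j, k ≠ j → g k j ∈ amax (S k j) (a0 k)) :
    ∃ (a : ℕ → Fin n → Fin d → ℝ) (St : ℕ → Fin n → Fin n → Finset (Fin d))
      (G : ℕ → Fin n → Fin n → Fin d), a 0 = a0 ∧ (∀ k j, k ≠ j → St 0 k j = S k j) ∧
      (∀ t k j, k ≠ j → St (t + 1) k j = amax (St t k j) (fun c => seqD M a k j c t)) ∧
      (∀ t k j, k ≠ j → G t k j ∈ St t k j) ∧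
      (∀ t k c, (Finset.univ.filter (fun j => j ≠ k ∧ G t k j = c)).card =
        (Finset.univ.filter (fun j => j ≠ k ∧ g k j = c)).card) ∧
      ∀ t k, 1 ≤ t → (∀ j, j ≠ k → ∀ c ∈ St t k j, ∀ c' ∈ St t k j,
        disp M a t k j c = disp M a t k j c') → a t k = 0 := by
  classical
  -- states: history, tie sets, choices
  let α := (ℕ → Fin n → Fin d → ℝ) × (Fin n → Fin n → Finset (Fin d)) × (Fin n → Fin n → Fin d)
  let P : ℕ → α → Prop := fun t s => (∀ k j, k ≠ j → s.2.2 k j ∈ s.2.1 k j) ∧
    (t = 0 → s.2.1 = S ∧ s.2.2 = g) ∧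
    (∀ k c, (Finset.univ.filter (fun j => j ≠ k ∧ s.2.2 k j = c)).card =
      (Finset.univ.filter (fun j => j ≠ k ∧ g k j = c)).card)
  let R : ℕ → α → α → Prop := fun t s s' => (∀ u, u ≠ t → s'.1 u = s.1 u) ∧
    (t = 0 → s'.1 t = a0) ∧
    (∀ k j, k ≠ j → s'.2.1 k j = amax (s.2.1 k j) (fun c => s'.1 t k c - disp M s.1 t k j c)) ∧
    (1 ≤ t → ∀ k, (∀ j, j ≠ k → ∀ c ∈ s.2.1 k j, ∀ c' ∈ s.2.1 k j,
        disp M s.1 t k j c = disp M s.1 t k j c') → s'.1 t k = 0)
  obtain ⟨f, hf0, hf⟩ := exists_seq P R (fun _ _ _ => 0, S, g)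
    ⟨fun k j hkj => (mem_amax.1 (hg k j hkj)).1, fun _ => ⟨rfl, rfl⟩, fun _ _ => rfl⟩ (by
    rintro t ⟨a, T, G⟩ ⟨hP1, hP2, hP3⟩
    simp only at hP1 hP2 hP3
    -- the new values and choices
    have hex : ∀ k, ∃ (v : Fin d → ℝ) (g' : Fin n → Fin d),
        (∀ j, j ≠ k → g' j ∈ amax (T k j) (fun c => v c - disp M a t k j c)) ∧
        (∀ c, (Finset.univ.filter (fun j => j ≠ k ∧ g' j = c)).card =
          (Finset.univ.filter (fun j => j ≠ k ∧ G k j = c)).card) ∧
        (t = 0 → v = a0 k) ∧ (1 ≤ t → (∀ j, j ≠ k → ∀ c ∈ T k j, ∀ c' ∈ T k j,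
          disp M a t k j c = disp M a t k j c') → v = 0) := by
      intro k
      rcases Nat.eq_zero_or_pos t with ht | ht
      · subst ht
        obtain ⟨h1, h2⟩ := hP2 rfl
        subst h1 h2
        refine ⟨a0 k, G k, fun j hj => ?_, fun _ => rfl, fun _ => rfl, fun h => absurd h (by omega)⟩
        have h3 : (fun c => a0 k c - disp M a 0 k j c) = a0 k := by
          ext c
          unfold disp
          rw [if_neg, sub_zero]
          have := hM k j hj.symm
          omega
        rw [h3]
        exact hg k j hj.symm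
      · by_cases hc : ∀ j, j ≠ k → ∀ c ∈ T k j, ∀ c' ∈ T k j,
          disp M a t k j c = disp M a t k j c'
        · refine ⟨0, G k, fun j hj => ?_, fun _ => rfl, fun h => absurd h (by omega),
            fun _ _ => rfl⟩
          rw [amax_const]
          · exact hP1 k j hj.symm
          · intro c hc1 c' hc2
            show (0 : Fin d → ℝ) c - _ = (0 : Fin d → ℝ) c' - _
            rw [hc j hj c hc1 c' hc2]
            rfl
        · obtain ⟨v, g', h1, h2⟩ := response k (T k) (G k) (fun j hj => hP1 k j hj.symm)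
            (fun j c => disp M a t k j c)
          exact ⟨v, g', fun j hj => mem_amax.2 (h1 j hj), h2, fun h => absurd h (by omega),
            fun _ h => absurd h hc⟩
    choose v g' h1 h2 h3 h4 using hex
    refine ⟨(fun u => if u = t then v else a u,
      fun k j => amax (T k j) (fun c => v k c - disp M a t k j c), g'),
      ⟨fun k j hkj => h1 k j hkj.symm, fun h => absurd h (by omega),
        fun k c => (h2 k c).trans (hP3 k c)⟩, fun u hu => ?_, fun ht => ?_, fun k j _ => ?_,
      fun ht k hk => ?_⟩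
    · show (if u = t then v else a u) = a u
      rw [if_neg hu]
    · show (if t = t then v else a t) = a0
      rw [if_pos rfl]
      ext k c
      rw [h3 k ht]
    · show amax (T k j) (fun c => v k c - disp M a t k j c) = amax (T k j)
        (fun c => (if t = t then v else a t) k c - disp M a t k j c)
      rw [if_pos rfl]
    · show (if t = t then v else a t) k = 0
      rw [if_pos rfl]
      exact h4 k ht hk)
  -- the histories are coherent
  obtain ⟨a, ha⟩ : ∃ a : ℕ → Fin n → Fin d → ℝ, ∀ t, a t = (f (t + 1)).1 t := ⟨_, fun _ => rfl⟩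
  have hcoh : ∀ t u, u < t → (f t).1 u = a u := by
    intro t
    induction t with
    | zero => intro u hu; omega
    | succ t ih =>
      intro u hu
      by_cases h : u = t
      · rw [h, ha]
      · rw [(hf t).2.1 u h]
        exact ih u (by omega)
  have hdisp : ∀ t k j, k ≠ j → ∀ c, disp M (f t).1 t k j c = disp M a t k j c := by
    intro t k j hkj c
    unfold disp
    split_ifs with h
    · rw [hcoh t (t - M k j) (by have := hM k j hkj; omega)]
    · rfl
  refine ⟨a, fun t => (f t).2.1, fun t => (f t).2.2, ?_, fun k j _ => ?_, fun t k j hkj => ?_,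
    fun t k j hkj => (hf t).1.1 k j hkj, fun t k c => (hf t).1.2.2 k c, fun t k ht hk => ?_⟩
  · rw [ha, (hf 0).2.2.1 rfl]
  · show (f 0).2.1 k j = S k j
    rw [hf0]
  · show (f (t + 1)).2.1 k j = amax ((f t).2.1 k j) _
    rw [(hf t).2.2.2.1 k j hkj]
    congr 1
    ext c
    rw [seqD_eq, hdisp t k j hkj, ha]
  · rw [ha]
    refine (hf t).2.2.2.2 ht k fun j hj c hc c' hc' => ?_
    rw [hdisp t k j hj.symm, hdisp t k j hj.symm]
    exact hk j hj c hc c' hc'

/-- the limit of an evolution -/
theorem limit (M : Fin n → Fin n → ℕ) (S : Fin n → Fin n → Finset (Fin d))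
    (g : Fin n → Fin n → Fin d) (a : ℕ → Fin n → Fin d → ℝ)
    (St : ℕ → Fin n → Fin n → Finset (Fin d)) (G : ℕ → Fin n → Fin n → Fin d)
    (h0 : ∀ k j, k ≠ j → St 0 k j = S k j)
    (h1 : ∀ t k j, k ≠ j → St (t + 1) k j = amax (St t k j) (fun c => seqD M a k j c t))
    (h2 : ∀ t k j, k ≠ j → G t k j ∈ St t k j)
    (h3 : ∀ t k c, (Finset.univ.filter (fun j => j ≠ k ∧ G t k j = c)).card =
        (Finset.univ.filter (fun j => j ≠ k ∧ g k j = c)).card) :
    ∃ (S' : Fin n → Fin n → Finset (Fin d)) (g' : Fin n → Fin n → Fin d),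
      (∀ k j, k ≠ j → ∀ c, c ∈ S' k j ↔ c ∈ S k j ∧ ∀ c' ∈ S k j,
        (∀ t, seqD M a k j c' t = seqD M a k j c t) ∨
          LexLt (seqD M a k j c') (seqD M a k j c)) ∧
      (∀ k j, k ≠ j → g' k j ∈ S' k j) ∧
      (∀ k c, (Finset.univ.filter (fun j => j ≠ k ∧ g' k j = c)).card =
        (Finset.univ.filter (fun j => j ≠ k ∧ g k j = c)).card) ∧
      ∀ t k j, k ≠ j → S' k j ⊆ St t k j := by
  classical
  have hanti1 : ∀ t k j, k ≠ j → St (t + 1) k j ⊆ St t k j := by
    intro t k j hkj
    rw [h1 t k j hkj]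
    exact Finset.filter_subset _ _
  have hanti : ∀ t s k j, k ≠ j → St (t + s) k j ⊆ St t k j := by
    intro t s k j hkj
    induction s with
    | zero => exact Finset.Subset.refl _
    | succ s ih => exact (hanti1 (t + s) k j hkj).trans ih
  obtain ⟨m, hm⟩ : ∃ m : ℕ → ℕ, ∀ t, m t = ∑ p ∈ Finset.univ.filter
      (fun p : Fin n × Fin n => p.1 ≠ p.2), (St t p.1 p.2).card := ⟨_, fun _ => rfl⟩
  obtain ⟨T0, hT0⟩ : ∃ T0, ∀ t, m T0 ≤ m t := by
    have hw := Nat.lt_wfRel.wf
    obtain ⟨x, ⟨T0, rfl⟩, hx⟩ := Nat.lt_wfRel.wf.has_min (Set.range m) ⟨m 0, 0, rfl⟩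
    exact ⟨T0, fun t => not_lt.1 (hx (m t) ⟨t, rfl⟩)⟩
  have hstab : ∀ s k j, k ≠ j → St (T0 + s) k j = St T0 k j := by
    intro s
    have hle : ∀ p ∈ Finset.univ.filter (fun p : Fin n × Fin n => p.1 ≠ p.2),
        (St (T0 + s) p.1 p.2).card ≤ (St T0 p.1 p.2).card := fun p hp =>
      Finset.card_le_card (hanti T0 s p.1 p.2 (Finset.mem_filter.1 hp).2)
    have heq : ∑ p ∈ Finset.univ.filter (fun p : Fin n × Fin n => p.1 ≠ p.2),
        (St (T0 + s) p.1 p.2).card = ∑ p ∈ Finset.univ.filter
        (fun p : Fin n × Fin n => p.1 ≠ p.2), (St T0 p.1 p.2).card := by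
      refine le_antisymm (Finset.sum_le_sum hle) ?_
      rw [← hm, ← hm]
      exact hT0 _
    intro k j hkj
    have := (Finset.sum_eq_sum_iff_of_le hle).1 heq (k, j)
      (Finset.mem_filter.2 ⟨Finset.mem_univ _, hkj⟩)
    exact Finset.eq_of_subset_of_card_le (hanti T0 s k j hkj) this.ge
  have hall : ∀ t k j, k ≠ j → St T0 k j ⊆ St t k j := by
    intro t k j hkj
    rcases le_total t T0 with h | h
    · obtain ⟨s, rfl⟩ := Nat.exists_eq_add_of_le h
      exact hanti t s k j hkj
    · obtain ⟨s, rfl⟩ := Nat.exists_eq_add_of_le h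
      rw [hstab s k j hkj]
  refine ⟨St T0, G T0, fun k j hkj c => ?_, fun k j hkj => h2 T0 k j hkj, fun k c => h3 T0 k c,
    hall⟩
  have hmem : ∀ t, ∀ c, c ∈ St (t + 1) k j ↔ c ∈ St t k j ∧ ∀ c' ∈ St t k j,
      seqD M a k j c' t ≤ seqD M a k j c t := by
    intro t c
    rw [h1 t k j hkj, mem_amax]
  constructor
  · intro hc
    refine ⟨by rw [← h0 k j hkj]; exact hall 0 k j hkj hc, fun c' hc' => ?_⟩
    by_cases hcase : ∀ t, c' ∈ St t k j
    · left
      intro t
      refine le_antisymm (((hmem t c).1 (hall _ k j hkj hc)).2 c' (hcase t))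
        (((hmem t c').1 (hcase (t + 1))).2 c (hall _ k j hkj hc))
    · right
      push Not at hcase
      obtain ⟨t1, ht1, hmin⟩ := Nat.lt_wfRel.wf.has_min {t | c' ∉ St t k j} hcase
      have hlt : ∀ t, t < t1 → c' ∈ St t k j := by
        intro t ht
        by_contra hcon
        exact hmin t hcon ht
      rcases Nat.eq_zero_or_pos t1 with h | h
      · exfalso
        apply ht1
        rw [h, h0 k j hkj]
        exact hc'
      obtain ⟨t, rfl⟩ : ∃ t, t1 = t + 1 := ⟨t1 - 1, by omega⟩
      refine ⟨t, fun s hs => ?_, ?_⟩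
      · refine le_antisymm (((hmem s c).1 (hall _ k j hkj hc)).2 c' (hlt s (by omega)))
          (((hmem s c').1 (hlt (s + 1) (by omega))).2 c (hall _ k j hkj hc))
      · refine lt_of_le_of_ne (((hmem t c).1 (hall _ k j hkj hc)).2 c' (hlt t (by omega)))
          fun he => ?_
        apply ht1
        show c' ∈ St (t + 1) k j
        rw [hmem]
        refine ⟨hlt t (by omega), fun b hb => ?_⟩
        rw [he]
        exact ((hmem t c).1 (hall _ k j hkj hc)).2 b hb
  · rintro ⟨hc, hmax⟩
    have key : ∀ t, c ∈ St t k j := by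
      intro t
      induction t with
      | zero => rw [h0 k j hkj]; exact hc
      | succ t ih =>
        rw [hmem]
        refine ⟨ih, fun c' hc' => ?_⟩
        have hcS : ∀ u, u ≤ t → c' ∈ St u k j := by
          intro u hu
          obtain ⟨s, rfl⟩ := Nat.exists_eq_add_of_le hu
          exact hanti u s k j hkj hc'
        have hcS' : ∀ u, u ≤ t → c ∈ St u k j := by
          intro u hu
          obtain ⟨s, rfl⟩ := Nat.exists_eq_add_of_le hu
          exact hanti u s k j hkj ih
        rcases hmax c' (by rw [← h0 k j hkj]; exact hcS 0 (Nat.zero_le _)) with h | ⟨u, hu1, hu2⟩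
        · exact (h t).le
        · rcases lt_trichotomy u t with h | h | h
          · exfalso
            have := ((hmem u c').1 (hcS (u + 1) h)).2 c (hcS' u h.le)
            exact absurd hu2 (not_lt.2 this)
          · rw [← h]
            exact hu2.le
          · exact (hu1 t h).le
    exact key T0

theorem round (n d : ℕ) : Round n d := by
  classical
  intro M y hM S hS g hg hne
  -- it suffices to find an initial value with progress
  have main : ∀ a0 : Fin n → Fin d → ℝ, (∀ k j, k ≠ j → g k j ∈ amax (S k j) (a0 k)) →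
      (∀ (a : ℕ → Fin n → Fin d → ℝ), a 0 = a0 → (∀ t k j, k ≠ j → ∀ c ∈ S k j, ∀ c' ∈ S k j,
        seqD M a k j c' t ≤ seqD M a k j c t) →
        (∀ t k, 1 ≤ t → (∀ j, j ≠ k → ∀ c ∈ S k j, ∀ c' ∈ S k j,
          disp M a t k j c = disp M a t k j c') → a t k = 0) → False) →
      ∃ (a : ℕ → Fin n → Fin d → ℝ) (S' : Fin n → Fin n → Finset (Fin d))
        (g' : Fin n → Fin n → Fin d),
        (∀ k j, k ≠ j → ∀ c, c ∈ S' k j ↔ c ∈ S k j ∧ ∀ c' ∈ S k j,
          (∀ t, seqD M a k j c' t = seqD M a k j c t) ∨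
            LexLt (seqD M a k j c') (seqD M a k j c)) ∧
        (∀ k j, k ≠ j → g' k j ∈ S' k j) ∧
        (∀ k c, (Finset.univ.filter (fun j => j ≠ k ∧ g' k j = c)).card =
          (Finset.univ.filter (fun j => j ≠ k ∧ g k j = c)).card) ∧
        ∃ k j, k ≠ j ∧ S' k j ≠ S k j := by
    intro a0 ha0 hcon
    obtain ⟨a, St, G, e1, e2, e3, e4, e5, e6⟩ := evolve M hM S g a0 ha0
    obtain ⟨S', g', k1, k2, k3, k4⟩ := limit M S g a St G e2 e3 e4 e5
    refine ⟨a, S', g', k1, k2, k3, ?_⟩
    by_contra hno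
    push Not at hno
    have hst : ∀ t k j, k ≠ j → St t k j = S k j := by
      intro t k j hkj
      apply Finset.Subset.antisymm
      · induction t with
        | zero => rw [e2 k j hkj]
        | succ t ih =>
          rw [e3 t k j hkj]
          exact (Finset.filter_subset _ _).trans ih
      · rw [← hno k j hkj]
        exact k4 t k j hkj
    refine hcon a e1 (fun t k j hkj c hc c' hc' => ?_) (fun t k ht hk => ?_)
    · have h := hst (t + 1) k j hkj
      rw [e3 t k j hkj, hst t k j hkj] at h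
      rw [← h, mem_amax] at hc
      exact hc.2 c' hc'
    · refine e6 t k ht fun j hj c hc c' hc' => ?_
      rw [hst t k j hj.symm] at hc hc'
      exact hk j hj c hc c' hc'
  by_cases hA : ∃ (k : Fin n) (β : Fin d → ℝ), (∀ j, j ≠ k → ∀ b ∈ S k j, β b ≤ β (g k j)) ∧
      ∃ j, j ≠ k ∧ ∃ b ∈ S k j, β b < β (g k j)
  · -- case A: progress at the time 0
    obtain ⟨k0, β, hβ, j0, hj0, b0, hb0, hlt⟩ := hA
    refine main (fun k => if k = k0 then β else 0) (fun k j hkj => ?_) fun a ha hmax _ => ?_
    · rw [mem_amax]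
      refine ⟨hg k j hkj, fun c' hc' => ?_⟩
      by_cases hk : k = k0
      · subst hk
        simp only [if_true]
        exact hβ j hkj.symm c' hc'
      · simp [hk]
    · have h := hmax 0 k0 j0 hj0.symm b0 hb0 (g k0 j0) (hg k0 j0 hj0.symm)
      rw [seqD_eq, seqD_eq, ha] at h
      have h1 : ∀ c, disp M a 0 k0 j0 c = 0 := by
        intro c
        unfold disp
        rw [if_neg]
        have := hM k0 j0 hj0.symm
        omega
      rw [h1, h1] at h
      simp only [if_true, sub_zero] at h
      exact absurd hlt (not_lt.2 h)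
  · -- case B
    obtain ⟨k1, j1, hkj1, hcard1⟩ := hne
    obtain ⟨c1, hc1⟩ : (S k1 j1).Nonempty := Finset.card_pos.1 (by omega)
    obtain ⟨⟨⟨kk, l⟩, c⟩, hmem, hmin⟩ := Finset.exists_min_image
      (Finset.univ.filter fun p : (Fin n × Fin n) × Fin d => p.1.1 ≠ p.1.2 ∧
        p.2 ∈ S p.1.1 p.1.2 ∧ 1 < (S p.1.1 p.1.2).card) (fun p => y p.1.2 p.2)
      ⟨((k1, j1), c1), Finset.mem_filter.2 ⟨Finset.mem_univ _, hkj1, hc1, hcard1⟩⟩
    obtain ⟨-, hkl, hc, hcard⟩ := Finset.mem_filter.1 hmem
    simp only at hkl hc hcard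
    have hlow : ∀ j, l ≠ j → c ∈ S l j → (S l j).card ≤ 1 := by
      intro j hlj hcj
      by_contra hcon
      push Not at hcon
      have h1 := hmin ((l, j), c) (Finset.mem_filter.2 ⟨Finset.mem_univ _, hlj, hcj, hcon⟩)
      have h2 := hS l j hlj c hcj
      simp only at h1
      omega
    obtain ⟨k, hk, hkmin⟩ := Finset.exists_min_image
      (Finset.univ.filter fun k => k ≠ l ∧ c ∈ S k l ∧ 1 < (S k l).card) (fun k => M k l)
      ⟨kk, Finset.mem_filter.2 ⟨Finset.mem_univ _, hkl, hc, hcard⟩⟩
    obtain ⟨-, hkl, hc, hcard⟩ := Finset.mem_filter.1 hk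
    have hconst : ∀ i, i ≠ l → (c ∈ S i l → (S i l).card ≤ 1) → ∀ b ∈ S i l, ∀ b' ∈ S i l,
        (Pi.single c (1 : ℝ) : Fin d → ℝ) b = (Pi.single c (1 : ℝ) : Fin d → ℝ) b' := by
      intro i _ h b hb b' hb'
      by_cases hci : c ∈ S i l
      · rw [Finset.card_le_one.1 (h hci) b hb b' hb']
      · rw [Pi.single_eq_of_ne, Pi.single_eq_of_ne]
        · rintro rfl
          exact hci hb'
        · rintro rfl
          exact hci hb
    refine main (fun i => if i = l then Pi.single c 1 else 0) (fun i j hij => ?_)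
      fun a ha hmax hrule => ?_
    · rw [mem_amax]
      refine ⟨hg i j hij, fun b hb => ?_⟩
      by_cases hi : i = l
      · subst hi
        simp only [if_true]
        by_cases hcj : c ∈ S i j
        · rw [Finset.card_le_one.1 (hlow j hij hcj) b hb (g i j) (hg i j hij)]
        · rw [Pi.single_eq_of_ne, Pi.single_eq_of_ne]
          · rintro rfl
            exact hcj (hg i j hij)
          · rintro rfl
            exact hcj hb
      · simp [hi]
    · -- before the time `M k l` nothing happens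
      have hzero : ∀ t, 1 ≤ t → t < M k l → ∀ i, a t i = 0 := by
        intro t
        induction t using Nat.strong_induction_on with
        | _ t ih =>
        intro ht1 ht2 i
        refine hrule t i ht1 fun j hj b hb b' hb' => ?_
        unfold disp
        split_ifs with hMt
        · rcases Nat.eq_zero_or_pos (t - M i j) with h | h
          · rw [h, ha]
            by_cases hjl : j = l
            · subst hjl
              simp only [if_true]
              refine hconst i hj.symm (fun hci => ?_) b hb b' hb'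
              by_contra hcon
              have := hkmin i (Finset.mem_filter.2 ⟨Finset.mem_univ _, hj.symm, hci, by omega⟩)
              omega
            · simp [hjl]
          · have := hM i j hj.symm
            rw [ih (t - M i j) (by omega) h (by omega) j]
            rfl
        · rfl
      -- the time `M k l`
      have hMkl := hM k l hkl
      have hd1 : ∀ j, j ≠ k → j ≠ l → ∀ b, disp M a (M k l) k j b = 0 := by
        intro j hj hjl b
        unfold disp
        split_ifs with h
        · rcases Nat.eq_zero_or_pos (M k l - M k j) with h' | h'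
          · rw [h', ha]
            simp [hjl]
          · have := hM k j hj.symm
            rw [hzero _ h' (by omega) j]
            rfl
        · rfl
      have hd2 : ∀ b, disp M a (M k l) k l b = (Pi.single c (1 : ℝ) : Fin d → ℝ) b := by
        intro b
        unfold disp
        rw [if_pos le_rfl, Nat.sub_self, ha]
        simp
      obtain ⟨α, hα⟩ : ∃ α : Fin d → ℝ, ∀ b, α b = a (M k l) k b := ⟨_, fun _ => rfl⟩
      have c1 : ∀ j, j ≠ k → j ≠ l → ∀ b ∈ S k j, ∀ b' ∈ S k j, α b = α b' := by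
        intro j hj hjl b hb b' hb'
        have h1 := hmax (M k l) k j hj.symm b hb b' hb'
        have h2 := hmax (M k l) k j hj.symm b' hb' b hb
        rw [seqD_eq, seqD_eq, hd1 j hj hjl, hd1 j hj hjl, ← hα, ← hα] at h1 h2
        linarith
      have c2 : ∀ b ∈ S k l, b ≠ c → α b = α c - 1 := by
        intro b hb hbc
        have h1 := hmax (M k l) k l hkl b hb c hc
        have h2 := hmax (M k l) k l hkl c hc b hb
        rw [seqD_eq, seqD_eq, hd2, hd2, ← hα, ← hα, Pi.single_eq_same,
          Pi.single_eq_of_ne hbc] at h1 h2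
        linarith
      obtain ⟨b0, hb0, hb0c⟩ : ∃ b ∈ S k l, b ≠ c := by
        by_contra hcon
        push Not at hcon
        have : (S k l).card ≤ 1 := Finset.card_le_one.2 fun x hx z hz => by
          rw [hcon x hx, hcon z hz]
        omega
      -- the indicator of `Z`
      obtain ⟨ε, hε⟩ : ∃ ε : Fin d → ℝ, ∀ b, ε b = if α c ≤ α b then 1 else 0 := ⟨_, fun _ => rfl⟩
      have z1 : ∀ j, j ≠ k → j ≠ l → ∀ b ∈ S k j, ∀ b' ∈ S k j, ε b = ε b' := by
        intro j hj hjl b hb b' hb'
        rw [hε, hε, c1 j hj hjl b hb b' hb']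
      have z2 : ∀ b ∈ S k l, b ≠ c → ε b = 0 := by
        intro b hb hbc
        rw [hε, if_neg]
        rw [c2 b hb hbc]
        linarith
      have z3 : ε c = 1 := by
        rw [hε, if_pos le_rfl]
      apply hA
      by_cases hgc : g k l = c
      · refine ⟨k, ε, fun j hj b hb => ?_, l, hkl.symm, b0, hb0, ?_⟩
        · by_cases hjl : j = l
          · subst hjl
            rw [hgc, z3]
            by_cases hbc : b = c
            · rw [hbc, z3]
            · rw [z2 b hb hbc]
              exact zero_le_one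
          · exact (z1 j hj hjl b hb _ (hg k j hj.symm)).le
        · rw [hgc, z3, z2 b0 hb0 hb0c]
          exact zero_lt_one
      · refine ⟨k, fun b => - ε b, fun j hj b hb => ?_, l, hkl.symm, c, hc, ?_⟩
        · show - ε b ≤ - ε (g k j)
          by_cases hjl : j = l
          · subst hjl
            rw [z2 _ (hg k j hkl) hgc]
            by_cases hbc : b = c
            · rw [hbc, z3]
              norm_num
            · rw [z2 b hb hbc]
          · exact (congrArg Neg.neg (z1 j hj hjl b hb _ (hg k j hj.symm))).le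
        · show - ε c < - ε (g k l)
          rw [z2 _ (hg k l hkl) hgc, z3]
          norm_num

end Pool.Agent.Helper27.BO
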