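import Mathlib

/-!
# BO: lexicographic semidirect products and Hahn series

If a bi-ordered group `Γ` acts on an ordered abelian group `W` by order automorphisms, then the
semidirect product (the `Γ`-component is compared first) is bi-ordered.  `hahnAct`: `Γ` acts on
the Hahn series with exponents in `Γ` by translations.
-/

open scoped BigOperators

namespace Pool.Agent.Helper27.BO

/-- an action of a group by order automorphisms -/
structure Act (Γ W : Type*) [Group Γ] [AddCommGroup W] [LinearOrder W] where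
  /-- the action -/
  s : Γ → W → W
  s_one : ∀ w, s 1 w = w
  s_mul : ∀ a b w, s (a * b) w = s a (s b w)
  s_add : ∀ a w w', s a (w + w') = s a w + s a w'
  s_mono : ∀ a w w', w ≤ w' → s a w ≤ s a w'

variable {Γ W W' : Type*} [Group Γ] [LinearOrder Γ] [MulLeftMono Γ] [MulRightMono Γ]
variable [AddCommGroup W] [LinearOrder W] [IsOrderedAddMonoid W]
variable [AddCommGroup W'] [LinearOrder W'] [IsOrderedAddMonoid W']

omit [LinearOrder Γ] [MulLeftMono Γ] [MulRightMono Γ] [IsOrderedAddMonoid W] in
theorem Act.s_zero (A : Act Γ W) (a : Γ) : A.s a 0 = 0 := by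
  have := A.s_add a 0 0
  rw [add_zero] at this
  simpa using this

omit [LinearOrder Γ] [MulLeftMono Γ] [MulRightMono Γ] [IsOrderedAddMonoid W] in
theorem Act.s_neg (A : Act Γ W) (a : Γ) (w : W) : A.s a (-w) = -A.s a w := by
  have := A.s_add a w (-w)
  rw [add_neg_cancel, A.s_zero] at this
  exact eq_neg_of_add_eq_zero_right this.symm

/-- the semidirect product -/
structure SD (A : Act Γ W) where
  /-- first component -/
  m : Γ
  /-- second component -/
  w : W

namespace SD

variable {A : Act Γ W}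

omit [LinearOrder Γ] [MulLeftMono Γ] [MulRightMono Γ] [IsOrderedAddMonoid W] in
theorem ext' {x y : SD A} (h1 : x.m = y.m) (h2 : x.w = y.w) : x = y := by
  cases x
  cases y
  simp only at h1 h2
  rw [h1, h2]

instance : Group (SD A) where
  mul x y := ⟨x.m * y.m, x.w + A.s x.m y.w⟩
  one := ⟨1, 0⟩
  inv x := ⟨x.m⁻¹, -A.s x.m⁻¹ x.w⟩
  mul_assoc x y z := by
    apply ext'
    · exact mul_assoc _ _ _
    · show (x.w + A.s x.m y.w) + A.s (x.m * y.m) z.w = x.w + A.s x.m (y.w + A.s y.m z.w)
      rw [A.s_mul, A.s_add, add_assoc]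
  one_mul x := by
    apply ext'
    · exact one_mul _
    · show 0 + A.s 1 x.w = x.w
      rw [A.s_one, zero_add]
  mul_one x := by
    apply ext'
    · exact mul_one _
    · show x.w + A.s x.m 0 = x.w
      rw [A.s_zero, add_zero]
  inv_mul_cancel x := by
    apply ext'
    · exact inv_mul_cancel _
    · show -A.s x.m⁻¹ x.w + A.s x.m⁻¹ x.w = 0
      rw [neg_add_cancel]

omit [LinearOrder Γ] [MulLeftMono Γ] [MulRightMono Γ] [IsOrderedAddMonoid W] in
theorem mul_m (x y : SD A) : (x * y).m = x.m * y.m := rfl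

omit [LinearOrder Γ] [MulLeftMono Γ] [MulRightMono Γ] [IsOrderedAddMonoid W] in
theorem mul_w (x y : SD A) : (x * y).w = x.w + A.s x.m y.w := rfl

omit [LinearOrder Γ] [MulLeftMono Γ] [MulRightMono Γ] [IsOrderedAddMonoid W] in
theorem mul_inv_m (x y : SD A) : (x * y⁻¹).m = x.m * y.m⁻¹ := rfl

omit [LinearOrder Γ] [MulLeftMono Γ] [MulRightMono Γ] [IsOrderedAddMonoid W] in
theorem mul_inv_w (x y : SD A) : (x * y⁻¹).w = x.w - A.s (x.m * y.m⁻¹) y.w := by
  show x.w + A.s x.m (-A.s y.m⁻¹ y.w) = _
  rw [A.s_neg, ← A.s_mul, sub_eq_add_neg]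

noncomputable instance : LinearOrder (SD A) :=
  LinearOrder.lift' (fun x => toLex (x.m, x.w)) (by
    intro x y h
    have h' := toLex.injective h
    rw [Prod.mk.injEq] at h'
    exact ext' h'.1 h'.2)

omit [MulLeftMono Γ] [MulRightMono Γ] [IsOrderedAddMonoid W] in
theorem le_iff (x y : SD A) : x ≤ y ↔ x.m < y.m ∨ x.m = y.m ∧ x.w ≤ y.w :=
  Prod.Lex.le_iff

omit [MulLeftMono Γ] [MulRightMono Γ] [IsOrderedAddMonoid W] in
theorem lt_iff (x y : SD A) : x < y ↔ x.m < y.m ∨ x.m = y.m ∧ x.w < y.w := by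
  rw [lt_iff_le_not_ge, le_iff, le_iff]
  constructor
  · rintro ⟨h | ⟨h1, h2⟩, h'⟩
    · exact Or.inl h
    · refine Or.inr ⟨h1, lt_of_not_ge fun h => h' (Or.inr ⟨h1.symm, h⟩)⟩
  · rintro (h | ⟨h1, h2⟩)
    · refine ⟨Or.inl h, ?_⟩
      rintro (h' | ⟨h', -⟩)
      · exact lt_asymm h h'
      · exact h.ne h'.symm
    · refine ⟨Or.inr ⟨h1, h2.le⟩, ?_⟩
      rintro (h' | ⟨-, h'⟩)
      · exact h'.ne h1.symm
      · exact absurd h2 (not_lt.2 h')

instance : MulLeftMono (SD A) where
  elim c x y h := by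
    show c * x ≤ c * y
    replace h : x ≤ y := h
    rw [le_iff] at h ⊢
    simp only [mul_m, mul_w]
    rcases h with h | ⟨h1, h2⟩
    · left
      exact lt_of_le_of_ne (mul_le_mul_right h.le _) fun he => h.ne (mul_left_cancel he)
    · right
      refine ⟨by rw [h1], ?_⟩
      exact (add_le_add_iff_left c.w).2 (A.s_mono _ _ _ h2)

instance : MulRightMono (SD A) where
  elim c x y h := by
    show x * c ≤ y * c
    replace h : x ≤ y := h
    rw [le_iff] at h ⊢
    simp only [mul_m, mul_w]
    rcases h with h | ⟨h1, h2⟩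
    · left
      exact lt_of_le_of_ne (mul_le_mul_left h.le _) fun he => h.ne (mul_right_cancel he)
    · right
      refine ⟨by rw [h1], ?_⟩
      rw [h1]
      exact (add_le_add_iff_right _).2 h2

end SD

/-- the product action, lexicographic -/
def Act.prod (A : Act Γ W) (A' : Act Γ W') : Act Γ (W ×ₗ W') where
  s a w := toLex (A.s a (ofLex w).1, A'.s a (ofLex w).2)
  s_one w := by
    rw [A.s_one, A'.s_one]
    rfl
  s_mul a b w := by
    show toLex _ = toLex _
    rw [A.s_mul, A'.s_mul]
    rfl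
  s_add a w w' := by
    show toLex (A.s a ((ofLex w).1 + (ofLex w').1), A'.s a ((ofLex w).2 + (ofLex w').2)) =
      toLex (A.s a (ofLex w).1 + A.s a (ofLex w').1, A'.s a (ofLex w).2 + A'.s a (ofLex w').2)
    rw [A.s_add, A'.s_add]
  s_mono a w w' h := by
    rw [Prod.Lex.le_iff] at h ⊢
    rcases h with h | ⟨h1, h2⟩
    · left
      refine lt_of_le_of_ne (A.s_mono _ _ _ h.le) fun he => h.ne ?_
      have h3 := congrArg (A.s a⁻¹) he
      simp only [ofLex_toLex] at h3
      rwa [← A.s_mul, ← A.s_mul, inv_mul_cancel, A.s_one, A.s_one] at h3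
    · right
      refine ⟨?_, A'.s_mono _ _ _ h2⟩
      simp only [ofLex_toLex]
      rw [h1]

/-- the trivial action -/
def Act.triv (Γ W : Type*) [Group Γ] [AddCommGroup W] [LinearOrder W] : Act Γ W where
  s _ w := w
  s_one _ := rfl
  s_mul _ _ _ := rfl
  s_add _ _ _ := rfl
  s_mono _ _ _ h := h

/-- left translation as an order embedding -/
def ltr (g : Γ) : Γ ↪o Γ where
  toFun e := g * e
  inj' _ _ h := mul_left_cancel h
  map_rel_iff' := by
    intro a b
    show g * a ≤ g * b ↔ a ≤ b
    constructor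
    · intro h
      have := mul_le_mul_right h g⁻¹
      rwa [inv_mul_cancel_left, inv_mul_cancel_left] at this
    · intro h
      exact mul_le_mul_right h g

/-- translation of Hahn series -/
noncomputable def trans (g : Γ) (x : HahnSeries Γ ℝ) : HahnSeries Γ ℝ :=
  HahnSeries.embDomain (ltr g) x

omit [MulRightMono Γ] in
theorem coeff_trans (g : Γ) (x : HahnSeries Γ ℝ) (e : Γ) :
    (trans g x).coeff e = x.coeff (g⁻¹ * e) := by
  have h : e = ltr g (g⁻¹ * e) := by
    show e = g * (g⁻¹ * e)
    rw [mul_inv_cancel_left]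
  rw [trans, h, HahnSeries.embDomain_coeff]
  congr 1
  show g⁻¹ * e = g⁻¹ * (g * (g⁻¹ * e))
  rw [inv_mul_cancel_left]

/-- Hahn series with exponents in `Γ` -/
noncomputable def hahnAct (Γ : Type*) [Group Γ] [LinearOrder Γ] [MulLeftMono Γ] :
    Act Γ (Lex (HahnSeries Γ ℝ)) where
  s g x := toLex (trans g (ofLex x))
  s_one x := by
    apply ofLex.injective
    ext e
    rw [ofLex_toLex, coeff_trans, inv_one, one_mul]
  s_mul a b x := by
    apply ofLex.injective
    ext e
    rw [ofLex_toLex, ofLex_toLex, coeff_trans, coeff_trans, ofLex_toLex, coeff_trans, mul_inv_rev,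
      mul_assoc]
  s_add a x x' := by
    apply ofLex.injective
    ext e
    show (trans a (ofLex x + ofLex x')).coeff e =
      (trans a (ofLex x) + trans a (ofLex x')).coeff e
    rw [coeff_trans, HahnSeries.coeff_add, HahnSeries.coeff_add, coeff_trans, coeff_trans]
  s_mono a x x' h := by
    rcases h.eq_or_lt with h | h
    · rw [h]
    · apply le_of_lt
      rw [HahnSeries.lt_iff] at h ⊢
      obtain ⟨i, h1, h2⟩ := h
      refine ⟨a * i, fun j hj => ?_, ?_⟩
      · rw [ofLex_toLex, ofLex_toLex, coeff_trans, coeff_trans]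
        refine h1 _ ?_
        have h3 : a⁻¹ * j ≤ i := by
          have := mul_le_mul_right hj.le a⁻¹
          rwa [inv_mul_cancel_left] at this
        refine lt_of_le_of_ne h3 fun he => hj.ne ?_
        rw [← he, mul_inv_cancel_left]
      · rw [ofLex_toLex, ofLex_toLex, coeff_trans, coeff_trans, inv_mul_cancel_left]
        exact h2

end Pool.Agent.Helper27.BO
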