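import Pool.Agent.Helper27.BO.Evo

/-!
# BO: ties over bi-ordered groups

`tRealized_of_bo_weak`: let `G` be a bi-ordered group and `a : Fin n → Fin d → G` such that for
`k ≠ j` the element `a k c * (a j c)⁻¹` depends on `c`.  If `g k j` is a colour where it is
maximal (not necessarily the only one), then the contents of the `g k` are realised.
-/

open scoped BigOperators

namespace Pool.Agent.Helper27.BO

open Pool.Agent.Helper28.SO (TRealized)

universe u

variable {n d : ℕ}

variable {Γ : Type u} [Group Γ] [LinearOrder Γ] [MulLeftMono Γ] [MulRightMono Γ]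

omit [Group Γ] [MulLeftMono Γ] [MulRightMono Γ] in
theorem tri {T : Set Γ} (hT : T.IsWF) (f g : Γ → ℝ) (hf : ∀ t, t ∉ T → f t = 0)
    (hg : ∀ t, t ∉ T → g t = 0) : (∀ t, f t = g t) ∨ (∃ t, Beats f g t) ∨ ∃ t, Beats g f t := by
  classical
  by_cases h : ∀ t, f t = g t
  · exact Or.inl h
  · right
    push Not at h
    obtain ⟨t0, ht0⟩ := h
    have hsub : {t | f t ≠ g t} ⊆ T := by
      intro t ht
      by_contra hcon
      exact ht (by rw [hf t hcon, hg t hcon])
    have hw : ({t | f t ≠ g t} : Set Γ).IsWF := hT.mono hsub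
    obtain ⟨t, ht, hmin⟩ : ∃ t, f t ≠ g t ∧ ∀ s, s < t → f s = g s := by
      refine ⟨hw.min ⟨t0, ht0⟩, hw.min_mem _, fun s hs => ?_⟩
      by_contra hcon
      exact hw.not_lt_min ⟨t0, ht0⟩ hcon hs
    rcases lt_or_gt_of_ne ht with h | h
    · exact Or.inr ⟨t, fun s hs => (hmin s hs).symm, h⟩
    · exact Or.inl ⟨t, hmin, h⟩

/-- **One round.** -/
theorem roundT (M : Fin n → Fin n → Γ) (hM : ∀ k j, k ≠ j → 1 < M k j) (T : Set Γ)
    (hT : T.IsWF) (hT1 : 1 ∈ T) (hpos : ∀ t ∈ T, 1 ≤ t)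
    (hTM : ∀ k j, k ≠ j → ∀ t, (M k j)⁻¹ * t ∈ T → t ∈ T)
    {Y : Type*} [LinearOrder Y] (y : Fin n → Fin d → Y)
    (S : Fin n → Fin n → Finset (Fin d)) (hS : ∀ k j, k ≠ j → ∀ c ∈ S k j, y j c < y k c)
    (g : Fin n → Fin n → Fin d) (hg : ∀ k j, k ≠ j → g k j ∈ S k j)
    (hne : ∃ k j, k ≠ j ∧ 1 < (S k j).card) :
    ∃ a : Γ → Fin n → Fin d → ℝ, (∀ t, t ∉ T → a t = 0) ∧
      (∃ g' : Fin n → Fin n → Fin d, (∀ k j, k ≠ j → g' k j ∈ tie M S a Set.univ k j) ∧
        Cont g g') ∧ ∃ k j, k ≠ j ∧ tie M S a Set.univ k j ≠ S k j := by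
  classical
  have hdif0 : ∀ a : Γ → Fin n → Fin d → ℝ, (∀ t, t ∉ T → a t = 0) → ∀ k j, k ≠ j →
      ∀ c t, t ∉ T → dif M a k j c t = 0 := by
    intro a hout k j hkj c t ht
    unfold dif
    rw [hout t ht, hout _ fun h => ht (hTM k j hkj t h)]
    simp
  -- it suffices to find an initial value with progress
  have main : ∀ a0 : Fin n → Fin d → ℝ, (∀ k j, k ≠ j → g k j ∈ amax (S k j) (a0 k)) →
      (∀ (a : Γ → Fin n → Fin d → ℝ), (∀ t, t ∉ T → a t = 0) → a 1 = a0 →
        (∀ t k j, k ≠ j → ∀ c ∈ S k j, ∀ c' ∈ S k j, dif M a k j c' t = dif M a k j c t) →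
        (∀ t, t ≠ 1 → ∀ k, (∀ j, j ≠ k → ∀ c ∈ S k j, ∀ c' ∈ S k j,
          a ((M k j)⁻¹ * t) j c = a ((M k j)⁻¹ * t) j c') → a t k = 0) → False) →
      ∃ a : Γ → Fin n → Fin d → ℝ, (∀ t, t ∉ T → a t = 0) ∧
        (∃ g' : Fin n → Fin n → Fin d, (∀ k j, k ≠ j → g' k j ∈ tie M S a Set.univ k j) ∧
          Cont g g') ∧ ∃ k j, k ≠ j ∧ tie M S a Set.univ k j ≠ S k j := by
    intro a0 ha0 hcon
    obtain ⟨a, e1, e2, e3, e4⟩ := evolveT M hM T hT hT1 hpos hTM S g hg a0 ha0
    refine ⟨a, e1, e3, ?_⟩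
    by_contra hno
    push Not at hno
    refine hcon a e1 e2 (fun t k j hkj c hc c' hc' => ?_) e4
    rcases tri hT (dif M a k j c') (dif M a k j c) (hdif0 a e1 k j hkj c')
      (hdif0 a e1 k j hkj c) with h | ⟨s, h⟩ | ⟨s, h⟩
    · exact h t
    · exfalso
      have h1 := hc
      rw [← hno k j hkj, mem_tie] at h1
      exact h1.2 c' hc' s trivial h
    · exfalso
      have h1 := hc'
      rw [← hno k j hkj, mem_tie] at h1
      exact h1.2 c hc s trivial h
  by_cases hA : ∃ (k : Fin n) (β : Fin d → ℝ), (∀ j, j ≠ k → ∀ b ∈ S k j, β b ≤ β (g k j)) ∧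
      ∃ j, j ≠ k ∧ ∃ b ∈ S k j, β b < β (g k j)
  · -- case A: progress at the time 1
    obtain ⟨k0, β, hβ, j0, hj0, b0, hb0, hlt⟩ := hA
    refine main (fun k => if k = k0 then β else 0) (fun k j hkj => ?_) fun a hout ha hmax _ => ?_
    · rw [mem_amax]
      refine ⟨hg k j hkj, fun c' hc' => ?_⟩
      by_cases hk : k = k0
      · subst hk
        simp only [if_true]
        exact hβ j hkj.symm c' hc'
      · simp [hk]
    · have h := hmax 1 k0 j0 hj0.symm b0 hb0 (g k0 j0) (hg k0 j0 hj0.symm)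
      unfold dif at h
      have h1 : a ((M k0 j0)⁻¹ * 1) = 0 := by
        refine hout _ fun h => ?_
        have h2 := hpos _ h
        rw [mul_one] at h2
        have h3 := mul_le_mul_right h2 (M k0 j0)
        rw [mul_one, mul_inv_cancel] at h3
        exact absurd (hM k0 j0 hj0.symm) (not_lt.2 h3)
      rw [h1, ha] at h
      simp only [if_true, Pi.zero_apply, sub_zero] at h
      exact hlt.ne h.symm
  · -- case B
    obtain ⟨k1, j1, hkj1, hcard1⟩ := hne
    obtain ⟨c1, hc1⟩ : (S k1 j1).Nonempty := Finset.card_pos.1 (by omega)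
    obtain ⟨⟨⟨kk, l⟩, c⟩, hmem, hmin⟩ := Finset.exists_min_image
      (Finset.univ.filter fun p : (Fin n × Fin n) × Fin d => p.1.1 ≠ p.1.2 ∧
        p.2 ∈ S p.1.1 p.1.2 ∧ 1 < (S p.1.1 p.1.2).card) (fun p => y p.1.2 p.2)
      ⟨((k1, j1), c1), Finset.mem_filter.2 ⟨Finset.mem_univ _, hkj1, hc1, hcard1⟩⟩
    obtain ⟨-, hkl, hc, hcard⟩ := Finset.mem_filter.1 hmem
    simp only at hkl hc hcard
    have hlow : ∀ j, l ≠ j → c ∈ S l j → (S l j).card ≤ 1 := by
      intro j hlj hcj
      by_contra hcon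
      push Not at hcon
      have h1 := hmin ((l, j), c) (Finset.mem_filter.2 ⟨Finset.mem_univ _, hlj, hcj, hcon⟩)
      have h2 := hS l j hlj c hcj
      simp only at h1
      exact absurd h2 (not_lt.2 h1)
    obtain ⟨k, hk, hkmin⟩ := Finset.exists_min_image
      (Finset.univ.filter fun k => k ≠ l ∧ c ∈ S k l ∧ 1 < (S k l).card) (fun k => M k l)
      ⟨kk, Finset.mem_filter.2 ⟨Finset.mem_univ _, hkl, hc, hcard⟩⟩
    obtain ⟨-, hkl, hc, hcard⟩ := Finset.mem_filter.1 hk
    have hconst : ∀ i, i ≠ l → (c ∈ S i l → (S i l).card ≤ 1) → ∀ b ∈ S i l, ∀ b' ∈ S i l,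
        (Pi.single c (1 : ℝ) : Fin d → ℝ) b = (Pi.single c (1 : ℝ) : Fin d → ℝ) b' := by
      intro i _ h b hb b' hb'
      by_cases hci : c ∈ S i l
      · rw [Finset.card_le_one.1 (h hci) b hb b' hb']
      · rw [Pi.single_eq_of_ne, Pi.single_eq_of_ne]
        · rintro rfl
          exact hci hb'
        · rintro rfl
          exact hci hb
    refine main (fun i => if i = l then Pi.single c 1 else 0) (fun i j hij => ?_)
      fun a hout ha hmax hrule => ?_
    · rw [mem_amax]
      refine ⟨hg i j hij, fun b hb => ?_⟩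
      by_cases hi : i = l
      · subst hi
        simp only [if_true]
        by_cases hcj : c ∈ S i j
        · rw [Finset.card_le_one.1 (hlow j hij hcj) b hb (g i j) (hg i j hij)]
        · rw [Pi.single_eq_of_ne, Pi.single_eq_of_ne]
          · rintro rfl
            exact hcj (hg i j hij)
          · rintro rfl
            exact hcj hb
      · simp [hi]
    · have hlt : ∀ k j, k ≠ j → ∀ t, (M k j)⁻¹ * t < t := by
        intro k j hkj t
        have h2 : (M k j)⁻¹ * t ≤ t := by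
          have := mul_le_mul_right (mul_le_mul_left (hM k j hkj).le t) (M k j)⁻¹
          rwa [inv_mul_cancel_left, one_mul] at this
        refine lt_of_le_of_ne h2 fun h => (hM k j hkj).ne ?_
        have h3 : (M k j)⁻¹ * t = 1 * t := by rw [one_mul]; exact h
        have h4 := mul_right_cancel h3
        rw [← inv_inv (M k j), h4, inv_one]
      -- before the time `M k l` nothing happens
      have hzero : ∀ t, t ≠ 1 → t < M k l → a t = 0 := by
        intro t
        by_cases htT : t ∈ T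
        · have hw : WellFounded (fun s t : T => (s : Γ) < t) := hT
          suffices H : ∀ t : T, (t : Γ) ≠ 1 → (t : Γ) < M k l → a t = 0 from H ⟨t, htT⟩
          intro t
          induction t using hw.induction with
          | _ t ih =>
          intro ht1 ht2
          funext i
          refine hrule t ht1 i fun j hj b hb b' hb' => ?_
          have hlt' := hlt i j hj.symm t
          by_cases h : (M i j)⁻¹ * (t : Γ) = 1
          · rw [h, ha]
            by_cases hjl : j = l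
            · subst hjl
              simp only [if_true]
              refine hconst i hj.symm (fun hci => ?_) b hb b' hb'
              by_contra hcon
              have h5 := hkmin i (Finset.mem_filter.2 ⟨Finset.mem_univ _, hj.symm, hci, by omega⟩)
              have h6 : (t : Γ) = M i j := by
                rw [← mul_inv_cancel_left (M i j) (t : Γ), h, mul_one]
              rw [h6] at ht2
              exact absurd ht2 (not_lt.2 h5)
            · simp [hjl]
          · by_cases hT' : (M i j)⁻¹ * (t : Γ) ∈ T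
            · have h7 := ih ⟨_, hT'⟩ hlt' h (hlt'.trans ht2)
              simp only at h7
              rw [h7]
              rfl
            · rw [hout _ hT']
              rfl
        · intro _ _
          exact hout t htT
      -- the time `M k l`
      have hd1 : ∀ j, j ≠ k → j ≠ l → ∀ b, a ((M k j)⁻¹ * M k l) j b = 0 := by
        intro j hj hjl b
        by_cases h : (M k j)⁻¹ * M k l = 1
        · rw [h, ha]
          simp [hjl]
        · rw [hzero _ h (hlt k j hj.symm _)]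
          rfl
      have hd2 : ∀ b, a ((M k l)⁻¹ * M k l) l b = (Pi.single c (1 : ℝ) : Fin d → ℝ) b := by
        intro b
        rw [inv_mul_cancel, ha]
        simp
      obtain ⟨α, hα⟩ : ∃ α : Fin d → ℝ, ∀ b, α b = a (M k l) k b := ⟨_, fun _ => rfl⟩
      have c1 : ∀ j, j ≠ k → j ≠ l → ∀ b ∈ S k j, ∀ b' ∈ S k j, α b = α b' := by
        intro j hj hjl b hb b' hb'
        have h1 := hmax (M k l) k j hj.symm b hb b' hb'
        unfold dif at h1
        rw [hd1 j hj hjl, hd1 j hj hjl, ← hα, ← hα] at h1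
        linarith
      have c2 : ∀ b ∈ S k l, b ≠ c → α b = α c - 1 := by
        intro b hb hbc
        have h1 := hmax (M k l) k l hkl b hb c hc
        unfold dif at h1
        rw [hd2, hd2, ← hα, ← hα, Pi.single_eq_same, Pi.single_eq_of_ne hbc] at h1
        linarith
      obtain ⟨b0, hb0, hb0c⟩ : ∃ b ∈ S k l, b ≠ c := by
        by_contra hcon
        push Not at hcon
        have : (S k l).card ≤ 1 := Finset.card_le_one.2 fun x hx z hz => by
          rw [hcon x hx, hcon z hz]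
        omega
      -- the indicator of `Z`
      obtain ⟨ε, hε⟩ : ∃ ε : Fin d → ℝ, ∀ b, ε b = if α c ≤ α b then 1 else 0 := ⟨_, fun _ => rfl⟩
      have z1 : ∀ j, j ≠ k → j ≠ l → ∀ b ∈ S k j, ∀ b' ∈ S k j, ε b = ε b' := by
        intro j hj hjl b hb b' hb'
        rw [hε, hε, c1 j hj hjl b hb b' hb']
      have z2 : ∀ b ∈ S k l, b ≠ c → ε b = 0 := by
        intro b hb hbc
        rw [hε, if_neg]
        rw [c2 b hb hbc]
        linarith
      have z3 : ε c = 1 := by
        rw [hε, if_pos le_rfl]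
      apply hA
      by_cases hgc : g k l = c
      · refine ⟨k, ε, fun j hj b hb => ?_, l, hkl.symm, b0, hb0, ?_⟩
        · by_cases hjl : j = l
          · subst hjl
            rw [hgc, z3]
            by_cases hbc : b = c
            · rw [hbc, z3]
            · rw [z2 b hb hbc]
              exact zero_le_one
          · exact (z1 j hj hjl b hb _ (hg k j hj.symm)).le
        · rw [hgc, z3, z2 b0 hb0 hb0c]
          exact zero_lt_one
      · refine ⟨k, fun b => - ε b, fun j hj b hb => ?_, l, hkl.symm, c, hc, ?_⟩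
        · show - ε b ≤ - ε (g k j)
          by_cases hjl : j = l
          · subst hjl
            rw [z2 _ (hg k j hkl) hgc]
            by_cases hbc : b = c
            · rw [hbc, z3]
              norm_num
            · rw [z2 b hb hbc]
          · exact (congrArg Neg.neg (z1 j hj hjl b hb _ (hg k j hj.symm))).le
        · show - ε c < - ε (g k l)
          rw [z2 _ (hg k l hkl) hgc, z3]
          norm_num

/-- the Hahn series of a function which vanishes outside a partially well-ordered set -/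
noncomputable def serT (T : Set Γ) (hT : T.IsPWO) (f : Γ → ℝ) (hf : ∀ t, t ∉ T → f t = 0) :
    HahnSeries Γ ℝ where
  coeff := f
  isPWO_support' := hT.mono fun t ht => by_contra fun h => ht (hf t h)

/-- the result of the iteration -/
def ResolvedT (M : Fin n → Fin n → Γ) (S : Fin n → Fin n → Finset (Fin d))
    (g : Fin n → Fin n → Fin d) : Prop :=
  ∃ (W : Type u) (_ : AddCommGroup W) (_ : LinearOrder W) (_ : IsOrderedAddMonoid W)
    (A : Act Γ W) (b : Fin n → Fin d → W) (g' : Fin n → Fin n → Fin d),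
    (∀ k j, k ≠ j → g' k j ∈ S k j ∧ ∀ c ∈ S k j, c ≠ g' k j →
      b k c - A.s (M k j) (b j c) < b k (g' k j) - A.s (M k j) (b j (g' k j))) ∧ Cont g g'

theorem resolvedT (M : Fin n → Fin n → Γ) (hM : ∀ k j, k ≠ j → 1 < M k j) (T : Set Γ)
    (hT : T.IsPWO) (hT1 : 1 ∈ T) (hpos : ∀ t ∈ T, 1 ≤ t)
    (hTM : ∀ k j, k ≠ j → ∀ t, (M k j)⁻¹ * t ∈ T → t ∈ T)
    {Y : Type*} [LinearOrder Y] (y : Fin n → Fin d → Y) :
    ∀ (N : ℕ) (S : Fin n → Fin n → Finset (Fin d)), (∀ k j, k ≠ j → ∀ c ∈ S k j, y j c < y k c) →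
      ∀ (g : Fin n → Fin n → Fin d), (∀ k j, k ≠ j → g k j ∈ S k j) →
      ∑ p ∈ Finset.univ.filter (fun p : Fin n × Fin n => p.1 ≠ p.2), (S p.1 p.2).card ≤ N →
      ResolvedT M S g := by
  classical
  intro N
  induction N using Nat.strong_induction_on with
  | _ N ih =>
  intro S hS g hg hN
  by_cases hne : ∃ k j, k ≠ j ∧ 1 < (S k j).card
  · obtain ⟨a, hout, ⟨g1, h2, h3⟩, k0, j0, hkj0, hS0⟩ :=
      roundT M hM T hT.isWF hT1 hpos hTM y S hS g hg hne
    have hsub : ∀ k j, tie M S a Set.univ k j ⊆ S k j := fun k j c hc =>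
      ((mem_tie M S a _ k j c).1 hc).1
    have hlt : ∑ p ∈ Finset.univ.filter (fun p : Fin n × Fin n => p.1 ≠ p.2),
        (tie M S a Set.univ p.1 p.2).card <
        ∑ p ∈ Finset.univ.filter (fun p : Fin n × Fin n => p.1 ≠ p.2), (S p.1 p.2).card := by
      refine Finset.sum_lt_sum (fun p _ => Finset.card_le_card
        (hsub _ _)) ⟨(k0, j0), Finset.mem_filter.2
          ⟨Finset.mem_univ _, hkj0⟩, Finset.card_lt_card ?_⟩
      exact lt_of_le_of_ne (hsub k0 j0) hS0
    obtain ⟨W, i1, i2, i3, A, b, g', hb, hg'⟩ := ih _ (lt_of_lt_of_le hlt hN)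
      (tie M S a Set.univ) (fun k j hkj c hc => hS k j hkj c (hsub k j hc)) g1 h2 le_rfl
    have hf : ∀ k c t, t ∉ T → a t k c = 0 := by
      intro k c t ht
      rw [hout t ht]
      rfl
    obtain ⟨s, hs⟩ : ∃ s : Fin n → Fin d → HahnSeries Γ ℝ, ∀ k c t, (s k c).coeff t = a t k c :=
      ⟨fun k c => serT T hT (fun t => a t k c) (hf k c), fun _ _ _ => rfl⟩
    have hcoeff : ∀ k j c t, (s k c - trans (M k j) (s j c)).coeff t = dif M a k j c t := by
      intro k j c t
      rw [HahnSeries.coeff_sub, coeff_trans, hs, hs]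
      rfl
    have hd0 : ∀ k j, k ≠ j → ∀ c t, t ∉ T → dif M a k j c t = 0 := by
      intro k j hkj c t ht
      unfold dif
      rw [hf _ _ _ ht, hf _ _ _ fun h => ht (hTM k j hkj t h), sub_zero]
    refine ⟨Lex (HahnSeries Γ ℝ) ×ₗ W, inferInstance, inferInstance,
      inferInstance, (hahnAct Γ).prod A, fun k c => toLex (toLex (s k c), b k c), g',
      fun k j hkj => ?_, fun k c => (hg' k c).trans (h3 k c)⟩
    obtain ⟨hm, hlt'⟩ := hb k j hkj
    refine ⟨hsub k j hm, fun c hc hcg => ?_⟩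
    have hmax := ((mem_tie M S a _ k j _).1 hm).2
    rw [Prod.Lex.lt_iff]
    rcases tri hT.isWF (dif M a k j (g' k j)) (dif M a k j c) (hd0 k j hkj _) (hd0 k j hkj _) with
      h | ⟨t, h⟩ | ⟨t, h⟩
    · right
      have hcS : c ∈ tie M S a Set.univ k j := by
        rw [mem_tie]
        refine ⟨hc, fun c' hc' t ht hb' => hmax c' hc' t ht ?_⟩
        have : dif M a k j (g' k j) = dif M a k j c := funext h
        rwa [this]
      refine ⟨?_, hlt' c hcS hcg⟩
      show toLex (s k c - trans (M k j) (s j c)) =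
        toLex (s k (g' k j) - trans (M k j) (s j (g' k j)))
      congr 1
      ext t
      rw [hcoeff, hcoeff, h t]
    · left
      rw [HahnSeries.lt_iff]
      refine ⟨t, fun r hr => ?_, ?_⟩
      · show (s k c - trans (M k j) (s j c)).coeff r =
          (s k (g' k j) - trans (M k j) (s j (g' k j))).coeff r
        rw [hcoeff, hcoeff, h.1 r hr]
      · show (s k c - trans (M k j) (s j c)).coeff t <
          (s k (g' k j) - trans (M k j) (s j (g' k j))).coeff t
        rw [hcoeff, hcoeff]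
        exact h.2
    · exact absurd h (hmax c hc t trivial)
  · push Not at hne
    refine ⟨Lex (HahnSeries Γ ℝ), inferInstance, inferInstance, inferInstance, hahnAct Γ,
      fun _ _ => 0, g, fun k j hkj => ⟨hg k j hkj, fun c hc hcg => ?_⟩, fun _ _ => rfl⟩
    exact absurd (Finset.card_le_one.1 (hne k j hkj) c hc (g k j) (hg k j hkj)) hcg

/-- ties, all delays being greater than one -/
theorem tRealized_of_bo_pos (hn : 1 ≤ n) (hd : 1 ≤ d) (a : Fin n → Fin d → Γ)
    (g : Fin n → Fin n → Fin d)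
    (hg : ∀ k j, k ≠ j → ∀ c, a k c * (a j c)⁻¹ ≤ a k (g k j) * (a j (g k j))⁻¹)
    (hpos : ∀ k j, k ≠ j → 1 < a k (g k j) * (a j (g k j))⁻¹)
    (v : Fin n → Fin d → ℕ)
    (hv : ∀ k c, v k c = (Finset.univ.filter (fun j => j ≠ k ∧ g k j = c)).card) :
    TRealized n d v := by
  classical
  obtain ⟨M, hM⟩ : ∃ M : Fin n → Fin n → Γ, ∀ k j, M k j = a k (g k j) * (a j (g k j))⁻¹ :=
    ⟨_, fun _ _ => rfl⟩
  have hM1 : ∀ k j, k ≠ j → 1 < M k j := fun k j hkj => by rw [hM]; exact hpos k j hkj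
  obtain ⟨S, hS⟩ : ∃ S : Fin n → Fin n → Finset (Fin d), ∀ k j c, c ∈ S k j ↔
      a k c * (a j c)⁻¹ = M k j :=
    ⟨fun k j => Finset.univ.filter fun c => a k c * (a j c)⁻¹ = M k j, fun k j c => by simp⟩
  let s : Set Γ := {x | ∃ k j, k ≠ j ∧ x = M k j}
  have hs1 : ∀ x ∈ s, 1 ≤ x := by
    rintro x ⟨k, j, hkj, rfl⟩
    exact (hM1 k j hkj).le
  have hsf : s.Finite := by
    refine (Set.finite_range (fun p : Fin n × Fin n => M p.1 p.2)).subset ?_
    rintro x ⟨k, j, -, rfl⟩
    exact ⟨(k, j), rfl⟩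
  obtain ⟨W, i1, i2, i3, A, b, g', hb, hg'⟩ := resolvedT M hM1 (Submonoid.closure s : Set Γ)
    (isPWO_closure s hsf.isPWO hs1) (Submonoid.one_mem _)
    (fun t ht => one_le_closure s hs1 t ht) (fun k j hkj t ht => by
      have h1 : M k j ∈ Submonoid.closure s := Submonoid.subset_closure ⟨k, j, hkj, rfl⟩
      have h2 := Submonoid.mul_mem _ h1 ht
      rwa [mul_inv_cancel_left] at h2) a _ S (fun k j hkj c hc => by
      rw [hS] at hc
      have h1 : a k c = M k j * a j c := by rw [← hc, inv_mul_cancel_right]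
      have h2 := mul_le_mul_left (hM1 k j hkj).le (a j c)
      rw [one_mul, ← h1] at h2
      refine lt_of_le_of_ne h2 fun h => (hM1 k j hkj).ne ?_
      rw [← hc, h, mul_inv_cancel]) g (fun k j _ => (hS k j _).2 (hM k j).symm) le_rfl
  refine tRealized_of_bo hn hd (G := SD A) (fun k c => ⟨a k c, b k c⟩) g' ?_ v fun k c => by
    rw [hv, hg']
  intro k j hkj c hc
  rw [SD.lt_iff, SD.mul_inv_m, SD.mul_inv_m, SD.mul_inv_w, SD.mul_inv_w]
  obtain ⟨h1, h2⟩ := hb k j hkj
  have e2 : a k (g' k j) * (a j (g' k j))⁻¹ = M k j := (hS k j _).1 h1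
  simp only [e2]
  by_cases hcS : c ∈ S k j
  · right
    have e3 : a k c * (a j c)⁻¹ = M k j := (hS k j _).1 hcS
    rw [e3]
    exact ⟨rfl, h2 c hcS hc⟩
  · left
    have h3 := hg k j hkj c
    rw [← hM] at h3
    exact lt_of_le_of_ne h3 fun h => hcS ((hS k j c).2 h)

/-- **Ties over bi-ordered groups.** -/
theorem tRealized_of_bo_weak (hn : 1 ≤ n) (hd : 1 ≤ d) (a : Fin n → Fin d → Γ)
    (hne : ∀ k j, k ≠ j → ∃ c c', a k c * (a j c)⁻¹ ≠ a k c' * (a j c')⁻¹)
    (g : Fin n → Fin n → Fin d)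
    (hg : ∀ k j, k ≠ j → ∀ c, a k c * (a j c)⁻¹ ≤ a k (g k j) * (a j (g k j))⁻¹)
    (v : Fin n → Fin d → ℕ)
    (hv : ∀ k c, v k c = (Finset.univ.filter (fun j => j ≠ k ∧ g k j = c)).card) :
    TRealized n d v := by
  classical
  let c0 : Fin d := ⟨0, hd⟩
  let R : Fin n → Fin n → Prop := fun k j => k ≠ j ∧
    ∀ c, a k c * (a j c)⁻¹ ≤ a k c0 * (a j c0)⁻¹
  have hRt : ∀ k j i, R k j → R j i → R k i := by
    rintro k j i ⟨h1, h2⟩ ⟨h3, h4⟩
    have h5 : ∀ c, a k c * (a i c)⁻¹ ≤ a k c0 * (a i c0)⁻¹ := by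
      intro c
      have e : ∀ c, a k c * (a i c)⁻¹ = (a k c * (a j c)⁻¹) * (a j c * (a i c)⁻¹) := by
        intro c
        rw [mul_assoc, inv_mul_cancel_left]
      rw [e c, e c0]
      exact (mul_le_mul_left (h2 c) _).trans (mul_le_mul_right (h4 c) _)
    refine ⟨?_, h5⟩
    rintro rfl
    obtain ⟨c, c', hcc⟩ := hne k j h1
    have h6 : ∀ c, a k c * (a j c)⁻¹ = a k c0 * (a j c0)⁻¹ := by
      intro c
      refine le_antisymm (h2 c) ?_
      have h7 := h4 c
      have h8 := mul_le_mul_left (mul_le_mul_right h7 (a k c * (a j c)⁻¹)) (a k c0 * (a j c0)⁻¹)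
      have e1 : (a k c * (a j c)⁻¹) * (a j c * (a k c)⁻¹) = 1 := by
        rw [mul_assoc, inv_mul_cancel_left, mul_inv_cancel]
      have e2 : (a k c * (a j c)⁻¹) * (a j c0 * (a k c0)⁻¹) * (a k c0 * (a j c0)⁻¹) =
          a k c * (a j c)⁻¹ := by
        rw [mul_assoc, mul_assoc (a j c0), inv_mul_cancel_left, mul_inv_cancel, mul_one]
      rw [e1, e2, one_mul] at h8
      exact h8
    exact hcc (by rw [h6 c, h6 c'])
  obtain ⟨ρ, hρ⟩ : ∃ ρ : Fin n → ℕ, ∀ k, ρ k = (Finset.univ.filter (fun j => R k j)).card :=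
    ⟨_, fun _ => rfl⟩
  have hρlt : ∀ k j, R k j → ρ j < ρ k := by
    intro k j hkj
    rw [hρ, hρ]
    refine Finset.card_lt_card ⟨fun i hi => ?_, fun h => ?_⟩
    · rw [Finset.mem_filter] at hi ⊢
      exact ⟨Finset.mem_univ _, hRt k j i hkj hi.2⟩
    · have h1 := h (Finset.mem_filter.2 ⟨Finset.mem_univ _, hkj⟩)
      exact (Finset.mem_filter.1 h1).2.1 rfl
  let a' : Fin n → Fin d → Γ ×ₗ Multiplicative ℤ := fun k c =>
    toLex ((a k c0)⁻¹ * a k c, Multiplicative.ofAdd (ρ k : ℤ))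
  have e1 : ∀ k j c, a' k c * (a' j c)⁻¹ = toLex ((a k c0)⁻¹ * (a k c * (a j c)⁻¹) * a j c0,
      Multiplicative.ofAdd (ρ k - ρ j : ℤ)) := by
    intro k j c
    show toLex (((a k c0)⁻¹ * a k c) * ((a j c0)⁻¹ * a j c)⁻¹,
      Multiplicative.ofAdd ((ρ k : ℤ) + -(ρ j : ℤ))) = _
    rw [mul_inv_rev, inv_inv, ← sub_eq_add_neg]
    congr 2
    simp only [mul_assoc]
  have hle : ∀ k j c c', a k c * (a j c)⁻¹ ≤ a k c' * (a j c')⁻¹ →
      (a k c0)⁻¹ * (a k c * (a j c)⁻¹) * a j c0 ≤ (a k c0)⁻¹ * (a k c' * (a j c')⁻¹) * a j c0 :=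
    fun k j c c' h => mul_le_mul_left (mul_le_mul_right h _) _
  refine tRealized_of_bo_pos hn hd a' g (fun k j hkj c => ?_) (fun k j hkj => ?_) v hv
  · rw [e1, e1, Prod.Lex.le_iff]
    rcases (hle k j c (g k j) (hg k j hkj c)).lt_or_eq with h | h
    · exact Or.inl h
    · exact Or.inr ⟨h, le_rfl⟩
  · rw [e1, Prod.Lex.lt_iff]
    have e2 : (a k c0)⁻¹ * (a k c0 * (a j c0)⁻¹) * a j c0 = 1 := by
      rw [inv_mul_cancel_left, inv_mul_cancel]
    have h1 := hle k j c0 (g k j) (hg k j hkj c0)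
    rw [e2] at h1
    rcases h1.lt_or_eq with h | h
    · exact Or.inl h
    · right
      refine ⟨h, ?_⟩
      have h2 : R k j := by
        refine ⟨hkj, fun c => ?_⟩
        have h3 : a k (g k j) * (a j (g k j))⁻¹ = a k c0 * (a j c0)⁻¹ := by
          rw [← e2] at h
          have h4 := mul_right_cancel h
          exact (mul_left_cancel h4).symm
        rw [← h3]
        exact hg k j hkj c
      have h3 := hρlt k j h2
      show (0 : ℤ) < (ρ k : ℤ) - (ρ j : ℤ)
      omega

end Pool.Agent.Helper27.BO
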